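import Mathlib

/-! Grigorchuk groups `G_ω` acting on the binary rooted tree, and growth functions. -/

namespace Pool.Agent.MP_fbbd83_al

/-- Changes the first letter of a word over `{0,1}` (`false = 0`, `true = 1`). -/
def flipFun : List Bool → List Bool
  | [] => []
  | x :: w => (!x) :: w

/-- The columns `0 ↦ (1,1,0)`, `1 ↦ (1,0,1)`, `2 ↦ (0,1,1)`; the letters `b, c, d` are `0, 1, 2`. -/
def col (i s : Fin 3) : Bool :=
  ![![true, true, false], ![true, false, true], ![false, true, true]] i s

/-- The shift of a sequence. -/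
def shift (ω : ℕ → Fin 3) : ℕ → Fin 3 := fun n => ω (n + 1)

/-- The map `s_ω = (a ^ (ω₁ s), s_{σ ω})` on vertices. -/
def genFun (s : Fin 3) : List Bool → (ℕ → Fin 3) → List Bool
  | [], _ => []
  | false :: w, ω => false :: (if col (ω 0) s then flipFun w else w)
  | true :: w, ω => true :: genFun s w (shift ω)

theorem flipFun_invol : Function.Involutive flipFun := by
  intro w
  cases w <;> simp [flipFun]

theorem genFun_invol (s : Fin 3) (ω : ℕ → Fin 3) :
    Function.Involutive (fun w => genFun s w ω) := by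
  intro w
  induction w generalizing ω with
  | nil => simp [genFun]
  | cons x w ih =>
    cases x
    · by_cases h : col (ω 0) s = true <;> simp [genFun, h, flipFun_invol w]
    · simpa [genFun] using ih (shift ω)

/-- The generator `a`. -/
def genA : Equiv.Perm (List Bool) := flipFun_invol.toPerm

/-- The generators `b_ω, c_ω, d_ω` for `s = 0, 1, 2`. -/
def genS (ω : ℕ → Fin 3) (s : Fin 3) : Equiv.Perm (List Bool) := (genFun_invol s ω).toPerm

/-- The symmetric generating set `{a, b_ω, c_ω, d_ω}` of `G_ω`. -/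
def gens (ω : ℕ → Fin 3) : Set (Equiv.Perm (List Bool)) :=
  {genA, genS ω 0, genS ω 1, genS ω 2}

/-- The number of group elements that are products of at most `n` elements of `S`. -/
noncomputable def growth {G : Type} [Group G] (S : Set G) (n : ℕ) : ℕ :=
  Set.ncard {g : G | ∃ l : List G, l.length ≤ n ∧ (∀ x ∈ l, x ∈ S) ∧ l.prod = g}

/-- `f ⪯ g`. -/
def Prec (f g : ℕ → ℕ) : Prop := ∃ C : ℕ, 0 < C ∧ ∀ n, f n ≤ g (C * n)

/-- `f ∼ g`. -/
def GrowthEquiv (f g : ℕ → ℕ) : Prop := Prec f g ∧ Prec g f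

/-- Each of `0, 1, 2` occurs in every subword of length `r`. -/
def Homogeneous (r : ℕ) (ω : ℕ → Fin 3) : Prop := ∀ n i, ∃ k < r, ω (n + k) = i

/-- The vectors `ℓ_k`: start from `(1,1,1)`; at each step double the two entries with column
value `1` and replace the third by the sum of all three. -/
def ell (ω : ℕ → Fin 3) : ℕ → Fin 3 → ℕ
  | 0, _ => 1
  | k + 1, s => if col (ω k) s then 2 * ell ω k s else ell ω k 0 + ell ω k 1 + ell ω k 2

/-- The sum `L_k` of the entries of `ℓ_k`. -/
def lenSum (ω : ℕ → Fin 3) (k : ℕ) : ℕ := ell ω k 0 + ell ω k 1 + ell ω k 2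

/-- The function `n ↦ 2 ^ (2 ^ κ - 1)`, with `κ` the number of `k` such that `L_k ≤ n`. -/
noncomputable def model (ω : ℕ → Fin 3) (n : ℕ) : ℕ :=
  2 ^ (2 ^ Set.ncard {k : ℕ | lenSum ω k ≤ n} - 1)

end Pool.Agent.MP_fbbd83_al
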