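import Pool.Agent.MP_fbbd83_al.Defs

/-! Arithmetic of the vectors `ell`. -/

namespace Pool.Agent.MP_fbbd83_al

variable (ω : ℕ → Fin 3)

theorem ell_succ (k : ℕ) (s : Fin 3) :
    ell ω (k + 1) s = if col (ω k) s then 2 * ell ω k s else lenSum ω k := rfl

theorem fin3_cases (s : Fin 3) : s = 0 ∨ s = 1 ∨ s = 2 := by
  revert s; decide

theorem ell_tri (k : ℕ) : ∀ s, 2 * ell ω k s ≤ lenSum ω k := by
  induction k with
  | zero => intro s; simp [ell, lenSum]
  | succ k ih =>
    intro s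
    have h0 := ih 0; have h1 := ih 1; have h2 := ih 2
    unfold lenSum at *
    rcases fin3_cases (ω k) with h | h | h <;> rcases fin3_cases s with rfl | rfl | rfl <;>
      simp [ell, h, col] <;> omega

theorem ell_two (k : ℕ) (s : Fin 3) : 2 * ell ω k s ≤ ell ω (k + 1) s := by
  rw [ell_succ]; split_ifs
  · exact le_rfl
  · exact ell_tri ω k s

theorem ell_pos (k : ℕ) (s : Fin 3) : 1 ≤ ell ω k s := by
  induction k with
  | zero => simp [ell]
  | succ k ih => have := ell_two ω k s; omega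

/-- the inactive letter of a symbol -/
def inact (i : Fin 3) : Fin 3 := 2 - i

theorem col_iff (i s : Fin 3) : col i s = true ↔ s ≠ inact i := by
  revert i s; decide

theorem lenSum_succ (k : ℕ) :
    lenSum ω (k + 1) + 2 * ell ω k (inact (ω k)) = 3 * lenSum ω k := by
  unfold lenSum
  rcases fin3_cases (ω k) with h | h | h <;> simp [ell, h, col, inact] <;> omega

theorem lenSum_two (k : ℕ) : 2 * lenSum ω k ≤ lenSum ω (k + 1) := by
  have := lenSum_succ ω k; have := ell_tri ω k (inact (ω k)); omega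

theorem lenSum_three (k : ℕ) : lenSum ω (k + 1) ≤ 3 * lenSum ω k := by
  have := lenSum_succ ω k; omega

theorem lenSum_zero : lenSum ω 0 = 3 := rfl

theorem lenSum_two_pow (k t : ℕ) : 2 ^ t * lenSum ω k ≤ lenSum ω (k + t) := by
  induction t with
  | zero => simp
  | succ t ih =>
    have := lenSum_two ω (k + t)
    rw [pow_succ, ← add_assoc]; nlinarith

theorem lenSum_three_pow (k t : ℕ) : lenSum ω (k + t) ≤ 3 ^ t * lenSum ω k := by
  induction t with
  | zero => simp
  | succ t ih =>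
    have := lenSum_three ω (k + t)
    rw [pow_succ, ← add_assoc]; nlinarith

theorem lenSum_mono {k m : ℕ} (h : k ≤ m) : lenSum ω k ≤ lenSum ω m := by
  obtain ⟨t, rfl⟩ := Nat.exists_eq_add_of_le h
  have := lenSum_two_pow ω k t
  have : 1 ≤ 2 ^ t := Nat.one_le_two_pow
  nlinarith

theorem lenSum_ge (k : ℕ) : 3 * 2 ^ k ≤ lenSum ω k := by
  have := lenSum_two_pow ω 0 k
  rw [lenSum_zero, zero_add] at this; omega

theorem lenSum_gt (k : ℕ) : k < lenSum ω k := by
  have := lenSum_ge ω k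
  have : k < 2 ^ k := Nat.lt_two_pow_self
  omega

theorem ell_mono (s : Fin 3) {k m : ℕ} (h : k ≤ m) : ell ω k s ≤ ell ω m s := by
  induction h with
  | refl => exact le_rfl
  | @step m _ ih => have := ell_two ω m s; exact ih.trans (by simp only [Nat.succ_eq_add_one]; omega)

theorem exists_inact (s : Fin 3) : ∃ i, inact i = s := by
  revert s; decide

/-- For homogeneous sequences all entries of `ell` are comparable with their sum. -/
theorem lenSum_le_ell {r : ℕ} (h : Homogeneous r ω) (k : ℕ) (s : Fin 3) :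
    lenSum ω k ≤ 3 ^ (r + 1) * ell ω k s := by
  by_cases hk : k ≤ r
  · have h1 := lenSum_three_pow ω 0 k
    rw [lenSum_zero, zero_add] at h1
    have h2 : 3 ^ k ≤ 3 ^ r := Nat.pow_le_pow_right (by norm_num) hk
    have h3 := ell_pos ω k s
    rw [pow_succ]; nlinarith
  · obtain ⟨n, rfl⟩ := Nat.exists_eq_add_of_le (le_of_lt (not_le.1 hk))
    obtain ⟨i, rfl⟩ := exists_inact s
    obtain ⟨j, hj, hi⟩ := h n i
    have h1 : ell ω (n + j + 1) (inact i) = lenSum ω (n + j) := by
      rw [ell_succ, hi, if_neg]; rw [col_iff]; simp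
    have h2 : ell ω (n + j + 1) (inact i) ≤ ell ω (r + n) (inact i) := ell_mono ω _ (by omega)
    have h3 := lenSum_three_pow ω (n + j) (r - j)
    rw [show n + j + (r - j) = r + n by omega] at h3
    have h4 : 3 ^ (r - j) ≤ 3 ^ (r + 1) := Nat.pow_le_pow_right (by norm_num) (by omega)
    calc lenSum ω (r + n) ≤ 3 ^ (r - j) * lenSum ω (n + j) := h3
      _ ≤ 3 ^ (r + 1) * ell ω (r + n) (inact i) := Nat.mul_le_mul h4 (by omega)

theorem ell_unhit (n : ℕ) (s : Fin 3) (j : ℕ) (h : ∀ t < j, inact (ω (n + t)) ≠ s) :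
    ell ω (n + j) s = 2 ^ j * ell ω n s := by
  induction j with
  | zero => simp
  | succ j ih =>
    rw [← add_assoc, ell_succ, if_pos, ih (fun t ht => h t (by omega))]
    · ring
    · rw [col_iff]; exact fun e => h j (by omega) e.symm

theorem slack_step {r : ℕ} (h : Homogeneous r ω) (n : ℕ) :
    7 * 2 ^ r * lenSum ω n ≤ 6 * lenSum ω (n + r) := by
  classical
  have hmin : ∃ s, 3 * ell ω n s ≤ lenSum ω n := by
    unfold lenSum
    by_contra hc
    push Not at hc
    have := hc 0; have := hc 1; have := hc 2; omega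
  obtain ⟨s, hs⟩ := hmin
  obtain ⟨i, rfl⟩ := exists_inact s
  have hex : ∃ j, inact (ω (n + j)) = inact i := by
    obtain ⟨j, _, hj⟩ := h n i
    exact ⟨j, by rw [hj]⟩
  have hjr : Nat.find hex < r := by
    obtain ⟨j, hj, hj'⟩ := h n i
    exact lt_of_le_of_lt (Nat.find_min' hex (by rw [hj'])) hj
  set j := Nat.find hex with hjdef
  have h1 := ell_unhit ω n (inact i) j (fun t ht => Nat.find_min hex ht)
  have h2 := lenSum_succ ω (n + j)
  rw [Nat.find_spec hex, h1] at h2
  have h3 := lenSum_two_pow ω n j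
  have h4 := lenSum_two_pow ω (n + j + 1) (r - j - 1)
  rw [show n + j + 1 + (r - j - 1) = n + r by omega] at h4
  have h5 : 2 ^ r = 2 ^ (r - j - 1) * (2 * 2 ^ j) := by
    rw [← pow_succ', ← pow_add]; congr 1; omega
  have h6 : 7 * (2 * 2 ^ j) * lenSum ω n ≤ 6 * lenSum ω (n + j + 1) := by
    have : 2 ^ j * (3 * ell ω n (inact i)) ≤ 2 ^ j * lenSum ω n := Nat.mul_le_mul_left _ hs
    nlinarith
  calc 7 * 2 ^ r * lenSum ω n = 2 ^ (r - j - 1) * (7 * (2 * 2 ^ j) * lenSum ω n) := by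
        rw [h5]; ring
    _ ≤ 2 ^ (r - j - 1) * (6 * lenSum ω (n + j + 1)) := Nat.mul_le_mul_left _ h6
    _ ≤ 6 * lenSum ω (n + r) := by nlinarith

theorem slack_iter {r : ℕ} (h : Homogeneous r ω) (n E : ℕ) :
    7 ^ E * 2 ^ (r * E) * lenSum ω n ≤ 6 ^ E * lenSum ω (n + r * E) := by
  induction E with
  | zero => simp
  | succ E ih =>
    have := slack_step ω h (n + r * E)
    rw [show n + r * (E + 1) = n + r * E + r by ring, show r * (E + 1) = r * E + r by ring,
      pow_succ, pow_succ, pow_add]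
    calc 7 ^ E * 7 * (2 ^ (r * E) * 2 ^ r) * lenSum ω n
        = 7 * 2 ^ r * (7 ^ E * 2 ^ (r * E) * lenSum ω n) := by ring
      _ ≤ 7 * 2 ^ r * (6 ^ E * lenSum ω (n + r * E)) := Nat.mul_le_mul_left _ ih
      _ = 6 ^ E * (7 * 2 ^ r * lenSum ω (n + r * E)) := by ring
      _ ≤ 6 ^ E * (6 * lenSum ω (n + r * E + r)) := Nat.mul_le_mul_left _ this
      _ = _ := by ring

theorem Homogeneous.pos {r : ℕ} {ω : ℕ → Fin 3} (h : Homogeneous r ω) : 0 < r := by
  obtain ⟨k, hk, _⟩ := h 0 0; omega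

theorem slack {r : ℕ} (h : Homogeneous r ω) (K : ℕ) :
    ∃ D, 0 < D ∧ ∀ n, K * 2 ^ D * lenSum ω n ≤ lenSum ω (n + D) := by
  obtain ⟨E, hE⟩ := pow_unbounded_of_one_lt (K : ℚ) (show (1 : ℚ) < 7 / 6 by norm_num)
  have hE' : K * 6 ^ (E + 1) ≤ 7 ^ (E + 1) := by
    have h1 : (K : ℚ) ≤ (7 / 6) ^ (E + 1) := by
      rw [pow_succ]
      have : (0 : ℚ) < (7 / 6) ^ E := by positivity
      linarith
    rw [div_pow, le_div_iff₀ (by positivity)] at h1
    exact_mod_cast h1
  refine ⟨r * (E + 1), Nat.mul_pos h.pos (by omega), fun n => ?_⟩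
  have := slack_iter ω h n (E + 1)
  have h6 : 0 < 6 ^ (E + 1) := by positivity
  apply Nat.le_of_mul_le_mul_left _ h6
  calc 6 ^ (E + 1) * (K * 2 ^ (r * (E + 1)) * lenSum ω n)
      = (K * 6 ^ (E + 1)) * (2 ^ (r * (E + 1)) * lenSum ω n) := by ring
    _ ≤ 7 ^ (E + 1) * (2 ^ (r * (E + 1)) * lenSum ω n) := Nat.mul_le_mul_right _ hE'
    _ = 7 ^ (E + 1) * 2 ^ (r * (E + 1)) * lenSum ω n := by ring
    _ ≤ _ := this

theorem slack_pow {K D : ℕ} (h : ∀ n, K * 2 ^ D * lenSum ω n ≤ lenSum ω (n + D))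
    (n u : ℕ) : K ^ (u / D) * 2 ^ u * lenSum ω n ≤ lenSum ω (n + u) := by
  have key : ∀ q n, K ^ q * 2 ^ (D * q) * lenSum ω n ≤ lenSum ω (n + D * q) := by
    intro q
    induction q with
    | zero => simp
    | succ q ih =>
      intro n
      have h1 := h (n + D * q)
      rw [show n + D * (q + 1) = n + D * q + D by ring, show D * (q + 1) = D * q + D by ring,
        pow_succ, pow_add]
      calc K ^ q * K * (2 ^ (D * q) * 2 ^ D) * lenSum ω n
          = K * 2 ^ D * (K ^ q * 2 ^ (D * q) * lenSum ω n) := by ring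
        _ ≤ K * 2 ^ D * lenSum ω (n + D * q) := Nat.mul_le_mul_left _ (ih n)
        _ ≤ _ := h1
  have h1 := key (u / D) n
  have h2 := lenSum_two_pow ω (n + D * (u / D)) (u % D)
  have h3 : D * (u / D) + u % D = u := Nat.div_add_mod u D
  rw [add_assoc, h3] at h2
  calc K ^ (u / D) * 2 ^ u * lenSum ω n
      = 2 ^ (u % D) * (K ^ (u / D) * 2 ^ (D * (u / D)) * lenSum ω n) := by
        conv_lhs => rw [← h3, pow_add]
        rw [h3]; ring
    _ ≤ 2 ^ (u % D) * lenSum ω (n + D * (u / D)) := Nat.mul_le_mul_left _ h1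
    _ ≤ _ := h2

/-! ### the counting function in `model` -/

noncomputable def kap (n : ℕ) : ℕ := Set.ncard {k : ℕ | lenSum ω k ≤ n}

theorem kap_spec (n k : ℕ) : lenSum ω k ≤ n ↔ k < kap ω n := by
  classical
  have hex : ∃ K, n < lenSum ω K := ⟨n, lenSum_gt ω n⟩
  have : {k : ℕ | lenSum ω k ≤ n} = (Finset.range (Nat.find hex) : Set ℕ) := by
    ext k
    simp only [Set.mem_ofPred_eq, Finset.coe_range, Set.mem_Iio]
    constructor
    · intro hk
      by_contra hc
      have := lenSum_mono ω (not_lt.1 hc)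
      have := Nat.find_spec hex
      omega
    · intro hk
      exact not_lt.1 (Nat.find_min hex hk)
  have h2 : kap ω n = Nat.find hex := by
    unfold kap; rw [this, Set.ncard_coe_finset, Finset.card_range]
  rw [h2]
  have h3 : k ∈ {k : ℕ | lenSum ω k ≤ n} ↔ k ∈ (Finset.range (Nat.find hex) : Set ℕ) := by
    rw [this]
  simpa using h3

theorem model_eq (n : ℕ) : model ω n = 2 ^ (2 ^ kap ω n - 1) := rfl

end Pool.Agent.MP_fbbd83_al
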