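import Mathlib

/-! An abstract entropy bound for random subproducts with a readable `ℤ/2` cocycle. -/

set_option linter.unusedSectionVars false

namespace Pool.Agent.MP_fbbd83_al

open Finset

section Gibbs

variable {Γ : Type} [Group Γ] [DecidableEq Γ]

/-- all subproducts (the head acts first) -/
def Val : List (Γ × Bool) → Finset Γ
  | [] => {1}
  | h :: L => Val L ∪ (Val L).image (· * h.1)

/-- expectation of `ψ` at a uniformly random subproduct -/
noncomputable def Avg : List Γ → (Γ → ℝ) → ℝ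
  | [], ψ => ψ 1
  | h :: L, ψ => Avg L (fun Y => (ψ Y + ψ (Y * h)) / 2)

omit [DecidableEq Γ] in
theorem Avg_add (L : List Γ) (f g : Γ → ℝ) : Avg L (fun Y => f Y + g Y) = Avg L f + Avg L g := by
  induction L generalizing f g with
  | nil => rfl
  | cons h L ih =>
    simp only [Avg]
    rw [← ih]; congr 1; funext Y; ring

omit [DecidableEq Γ] in
theorem Avg_lin (L : List Γ) (a b : ℝ) (f : Γ → ℝ) :
    Avg L (fun Y => a + b * f Y) = a + b * Avg L f := by
  induction L generalizing f with
  | nil => rfl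
  | cons h L ih =>
    simp only [Avg]
    rw [← ih]; congr 1; funext Y; ring

omit [DecidableEq Γ] in
theorem Avg_mono (L : List Γ) (f g : Γ → ℝ) (h : ∀ Y, f Y ≤ g Y) : Avg L f ≤ Avg L g := by
  induction L generalizing f g with
  | nil => exact h 1
  | cons x L ih =>
    simp only [Avg]
    apply ih; intro Y
    have := h Y; have := h (Y * x); linarith

def ind (b : Bool) : ℝ := if b then 1 else 0

theorem ind_nonneg (b : Bool) : 0 ≤ ind b := by cases b <;> simp [ind]

theorem ind_xor (b c : Bool) : ind (xor b c) ≤ ind b + ind c := by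
  cases b <;> cases c <;> simp [ind]

noncomputable def gain (φ : Γ → Bool) : List (Γ × Bool) → ℝ
  | [] => 0
  | (_, false) :: L => gain φ L
  | (_, true) :: L =>
      gain φ L + (Real.log (8 / 5) - Real.log 4 * Avg (L.map Prod.fst) (fun Y => ind (φ Y)))

theorem union_bound (A : Finset Γ) (h : Γ) (w ψ : Γ → ℝ) (hw0 : ∀ Y, 0 < w Y)
    (hw1 : ∀ Y, w Y ≤ 1) (hw : ∀ Y, w (Y * h) + w Y ≤ 1) :
    ∑ Y ∈ A, Real.exp (Real.log (2 * w Y) + (ψ Y + ψ (Y * h)) / 2) ≤
      ∑ g ∈ A ∪ A.image (· * h), Real.exp (ψ g) := by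
  have h1 : ∀ Y, Real.exp (Real.log (2 * w Y) + (ψ Y + ψ (Y * h)) / 2) ≤
      w Y * Real.exp (ψ Y) + w Y * Real.exp (ψ (Y * h)) := by
    intro Y
    have hp := hw0 Y
    rw [Real.exp_add, Real.exp_log (by linarith)]
    have e1 : Real.exp (ψ Y) = Real.exp (ψ Y / 2) ^ 2 := by
      rw [← Real.exp_nat_mul]; congr 1; push_cast; ring
    have e2 : Real.exp (ψ (Y * h)) = Real.exp (ψ (Y * h) / 2) ^ 2 := by
      rw [← Real.exp_nat_mul]; congr 1; push_cast; ring
    rw [add_div, Real.exp_add, e1, e2]
    have := mul_nonneg hp.le (sq_nonneg (Real.exp (ψ Y / 2) - Real.exp (ψ (Y * h) / 2)))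
    nlinarith
  refine (Finset.sum_le_sum (fun Y _ => h1 Y)).trans ?_
  rw [Finset.sum_add_distrib]
  have e1 : ∑ Y ∈ A, w Y * Real.exp (ψ Y) =
      ∑ g ∈ A ∪ A.image (· * h), (if g ∈ A then w g * Real.exp (ψ g) else 0) := by
    rw [Finset.sum_ite_mem, Finset.union_inter_cancel_left]
  have e2 : ∑ Y ∈ A, w Y * Real.exp (ψ (Y * h)) =
      ∑ g ∈ A ∪ A.image (· * h),
        (if g ∈ A.image (· * h) then w (g * h⁻¹) * Real.exp (ψ g) else 0) := by
    rw [Finset.sum_ite_mem, Finset.union_inter_cancel_right, Finset.sum_image]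
    · simp
    · intro x _ y _ e; simpa using e
  rw [e1, e2, ← Finset.sum_add_distrib]
  apply Finset.sum_le_sum
  intro g _
  have hp := Real.exp_pos (ψ g)
  have a1 := hw0 g; have a2 := hw0 (g * h⁻¹); have a3 := hw1 g; have a4 := hw1 (g * h⁻¹)
  have a5 := hw (g * h⁻¹)
  rw [inv_mul_cancel_right] at a5
  split_ifs <;> nlinarith

theorem gibbs (φ : Γ → Bool) (L : List (Γ × Bool))
    (hL : ∀ p ∈ L, p.2 = true → ∀ Y, φ (Y * p.1) = !φ Y) (ψ : Γ → ℝ) :
    Real.exp (Avg (L.map Prod.fst) ψ + gain φ L) ≤ ∑ g ∈ Val L, Real.exp (ψ g) := by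
  induction L generalizing ψ with
  | nil => simp [Avg, gain, Val]
  | cons p L ih =>
    obtain ⟨h, b⟩ := p
    have ih := ih (fun p hp => hL p (List.mem_cons_of_mem _ hp))
    cases b
    · have h1 := union_bound (Val L) h (fun _ => 1 / 2) ψ (by intro; norm_num) (by intro; norm_num)
        (by intro; norm_num)
      refine le_trans ?_ h1
      have h2 := ih (fun Y => (ψ Y + ψ (Y * h)) / 2)
      simpa [Avg, gain] using h2
    · have hφ := hL (h, true) List.mem_cons_self rfl
      have h1 := union_bound (Val L) h (fun Y => if φ Y then 1 / 5 else 4 / 5) ψ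
        (by intro Y; split_ifs <;> norm_num) (by intro Y; split_ifs <;> norm_num)
        (by intro Y; simp only [hφ Y]; cases φ Y <;> norm_num)
      refine le_trans ?_ h1
      have e : ∀ Y, Real.log (2 * (if φ Y then 1 / 5 else 4 / 5)) =
          Real.log (8 / 5) + (-Real.log 4) * ind (φ Y) := by
        intro Y
        cases φ Y
        · simp [ind]; norm_num
        · simp only [ind, if_true, mul_one]
          rw [← sub_eq_add_neg, ← Real.log_div (by norm_num) (by norm_num)]; norm_num
      simp only [e]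
      have h2 := ih (fun Y => (Real.log (8 / 5) + (-Real.log 4) * ind (φ Y)) +
        (ψ Y + ψ (Y * h)) / 2)
      rw [Avg_add, Avg_lin] at h2
      refine le_trans (le_of_eq ?_) h2
      simp only [List.map_cons, Avg, gain]
      congr 1; ring

theorem gibbs_card (φ : Γ → Bool) (L : List (Γ × Bool))
    (hL : ∀ p ∈ L, p.2 = true → ∀ Y, φ (Y * p.1) = !φ Y) :
    Real.exp (gain φ L) ≤ (Val L).card := by
  have := gibbs φ L hL (fun _ => 0)
  have h0 : Avg (L.map Prod.fst) (fun _ => (0 : ℝ)) = 0 := by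
    simpa using Avg_lin (L.map Prod.fst) 0 0 (fun _ => 0)
  simpa [h0] using this

end Gibbs

section Hits

variable {Γ V : Type} [Group Γ] [MulAction Γ V]

/-- expectation of `f` at the endpoint -/
noncomputable def mk : List Γ → (V → ℝ) → V → ℝ
  | [], f, x => f x
  | h :: L, f, x => (mk L f x + mk L f (h • x)) / 2

/-- expected number of steps at which the trajectory is at a bad point of the next factor -/
noncomputable def hits (χ : Γ → V → Bool) : List Γ → V → ℝ
  | [], _ => 0
  | h :: L, x => ind (χ h x) + (hits χ L x + hits χ L (h • x)) / 2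

theorem mk_nonneg (L : List Γ) (f : V → ℝ) (hf : ∀ y, 0 ≤ f y) (x : V) : 0 ≤ mk L f x := by
  induction L generalizing x with
  | nil => exact hf x
  | cons h L ih => simp only [mk]; have := ih x; have := ih (h • x); linarith

theorem mk_le (L : List Γ) (f : V → ℝ) (c : ℝ) (hf : ∀ y, f y ≤ c) (x : V) : mk L f x ≤ c := by
  induction L generalizing x with
  | nil => exact hf x
  | cons h L ih => simp only [mk]; have := ih x; have := ih (h • x); linarith

theorem hits_nonneg (χ : Γ → V → Bool) (L : List Γ) (x : V) : 0 ≤ hits χ L x := by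
  induction L generalizing x with
  | nil => exact le_rfl
  | cons h L ih =>
    simp only [hits]; have := ih x; have := ih (h • x); have := ind_nonneg (χ h x); linarith

theorem hits_append (χ : Γ → V → Bool) (L L' : List Γ) (x : V) :
    hits χ (L ++ L') x = hits χ L x + mk L (hits χ L') x := by
  induction L generalizing x with
  | nil => simp [hits, mk]
  | cons h L ih => simp only [List.cons_append, hits, mk, ih]; ring

theorem hits_good (χ : Γ → V → Bool) (L : List Γ) (hL : ∀ h ∈ L, ∀ y, χ h y = false) (x : V) :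
    hits χ L x = 0 := by
  induction L generalizing x with
  | nil => rfl
  | cons h L ih =>
    have ih := ih (fun h' hh' => hL h' (List.mem_cons_of_mem _ hh'))
    simp [hits, ih, hL h List.mem_cons_self, ind]

theorem Avg_le_hits (χ : Γ → V → Bool) (h1 : ∀ v, χ 1 v = false)
    (hc : ∀ g h v, χ (g * h) v = xor (χ h v) (χ g (h • v))) (L : List Γ) (x : V) :
    Avg L (fun Y => ind (χ Y x)) ≤ hits χ L x := by
  induction L generalizing x with
  | nil => simp [Avg, hits, h1, ind]
  | cons h L ih =>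
    simp only [Avg, hits]
    have a1 := ih x
    have a2 := ih (h • x)
    have a3 := Avg_mono L (fun Y => (ind (χ Y x) + ind (χ (Y * h) x)) / 2)
      (fun Y => (ind (χ h x) + (1 / 2) * ind (χ Y x)) + (0 + (1 / 2) * ind (χ Y (h • x)))) (by
        intro Y
        rw [hc]
        have := ind_xor (χ h x) (χ Y (h • x))
        have := ind_nonneg (χ h x)
        linarith)
    rw [Avg_add, Avg_lin, Avg_lin] at a3
    linarith

variable [Fintype V]

theorem sum_smul (h : Γ) (f : V → ℝ) : ∑ y, f (h • y) = ∑ y, f y :=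
  Equiv.sum_comp (MulAction.toPerm h) f

theorem sum_mk (L : List Γ) (f : V → ℝ) : ∑ y, mk L f y = ∑ y, f y := by
  induction L with
  | nil => rfl
  | cons h L ih =>
    simp only [mk]
    rw [← Finset.sum_div, Finset.sum_add_distrib, sum_smul h (mk L f), ih]; ring

/-- total number of bad points -/
noncomputable def tot (χ : Γ → V → Bool) (L : List Γ) : ℝ := ∑ y, hits χ L y

theorem tot_append (χ : Γ → V → Bool) (L L' : List Γ) :
    tot χ (L ++ L') = tot χ L + tot χ L' := by
  simp only [tot, hits_append, Finset.sum_add_distrib, sum_mk]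

theorem tot_single (χ : Γ → V → Bool) (h : Γ) : tot χ [h] = ∑ y, ind (χ h y) := by
  simp [tot, hits]

theorem tot_nonneg (χ : Γ → V → Bool) (L : List Γ) : 0 ≤ tot χ L :=
  Finset.sum_nonneg (fun y _ => hits_nonneg χ L y)

variable [DecidableEq V]

/-- `h` fixes the first `n` letters and changes the next one -/
def Lev (C : V → ℕ → Finset V) (h : Γ) (n : ℕ) : Prop :=
  ∀ x, ∀ y ∈ C x (n + 1), h • y ∈ C x n ∧ h • y ∉ C x (n + 1)

theorem lev_sum (C : V → ℕ → Finset V) (hC : ∀ x m M, m ≤ M → C x M ⊆ C x m) (h : Γ) (n : ℕ)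
    (hl : Lev C h n) (F : V → ℝ) (hF : ∀ y, 0 ≤ F y) (x : V) :
    ∑ y ∈ C x (n + 1), (F y + F (h • y)) ≤ ∑ y ∈ C x n, F y := by
  rw [Finset.sum_add_distrib]
  have e : ∑ y ∈ C x (n + 1), F (h • y) = ∑ z ∈ (C x (n + 1)).image (h • ·), F z := by
    rw [Finset.sum_image]
    intro a _ b _ e
    exact MulAction.injective h e
  rw [e, ← Finset.sum_union]
  · apply Finset.sum_le_sum_of_subset_of_nonneg _ (fun y _ _ => hF y)
    intro z hz
    rcases Finset.mem_union.1 hz with hz | hz
    · exact hC x n (n + 1) (by omega) hz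
    · obtain ⟨y, hy, rfl⟩ := Finset.mem_image.1 hz
      exact (hl x y hy).1
  · rw [Finset.disjoint_right]
    intro z hz
    obtain ⟨y, hy, rfl⟩ := Finset.mem_image.1 hz
    exact (hl x y hy).2

theorem cube (C : V → ℕ → Finset V) (hC : ∀ x m M, m ≤ M → C x M ⊆ C x m) (g : ℕ → Γ)
    (f : V → ℝ) (hf : ∀ y, 0 ≤ f y) (m : ℕ) (x : V) (ns : List ℕ) :
    ∀ M, ns.Pairwise (· > ·) → (∀ n ∈ ns, m ≤ n ∧ n < M ∧ Lev C (g n) n) → m ≤ M →
      ∑ y ∈ C x M, mk (ns.map g) f y ≤ (1 / 2) ^ ns.length * ∑ y ∈ C x m, f y := by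
  induction ns with
  | nil =>
    intro M _ _ hm
    simp only [List.map_nil, mk, List.length_nil, pow_zero, one_mul]
    exact Finset.sum_le_sum_of_subset_of_nonneg (hC x m M hm) (fun y _ _ => hf y)
  | cons n ns ih =>
    intro M hp hn _
    obtain ⟨h1, h2, h3⟩ := hn n List.mem_cons_self
    rw [List.pairwise_cons] at hp
    have ih := ih n hp.2 (fun k hk => ⟨(hn k (List.mem_cons_of_mem _ hk)).1, hp.1 k hk,
      (hn k (List.mem_cons_of_mem _ hk)).2.2⟩) h1
    have hF := mk_nonneg (ns.map g) f hf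
    have a1 := lev_sum C hC (g n) n h3 (mk (ns.map g) f) hF x
    have a2 : ∑ y ∈ C x M, (mk (ns.map g) f y + mk (ns.map g) f (g n • y)) ≤
        ∑ y ∈ C x (n + 1), (mk (ns.map g) f y + mk (ns.map g) f (g n • y)) :=
      Finset.sum_le_sum_of_subset_of_nonneg (hC x (n + 1) M h2)
        (fun y _ _ => add_nonneg (hF y) (hF _))
    simp only [List.map_cons, mk, List.length_cons]
    rw [← Finset.sum_div, pow_succ]
    linarith

end Hits

section Blocks

variable {Γ V : Type} [Group Γ] [MulAction Γ V]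

/-- the hierarchical word -/
def Blk (bit : Γ) (J : ℕ → List Γ) : ℕ → List (Γ × Bool)
  | 0 => [(bit, true)]
  | i + 1 => Blk bit J i ++ ((J i).map (fun h => (h, false)) ++ Blk bit J i)

theorem gain_false (φ : Γ → Bool) (J : List Γ) (L : List (Γ × Bool)) :
    gain φ (J.map (fun h => (h, false)) ++ L) = gain φ L := by
  induction J with
  | nil => rfl
  | cons h J ih => simpa [gain] using ih

theorem map_fst_false (J : List Γ) : (J.map (fun h => (h, false))).map Prod.fst = J := by
  induction J with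
  | nil => rfl
  | cons h J ih => rw [List.map_cons, List.map_cons, ih]

theorem gain_Blk (χ : Γ → V → Bool) (h1 : ∀ v, χ 1 v = false)
    (hc : ∀ g h v, χ (g * h) v = xor (χ h v) (χ g (h • v))) (o : V) (bit : Γ) (J : ℕ → List Γ)
    (η : ℕ → ℝ) (I : ℕ) (hη0 : ∀ i, 0 ≤ η i)
    (hη : ∀ i < I, ∀ x, hits χ (J i ++ (Blk bit J i).map Prod.fst) x ≤ η i) :
    ∀ i ≤ I, ∀ (Cn : List (Γ × Bool)) (e : ℝ), (∀ x, hits χ (Cn.map Prod.fst) x ≤ e) →
      gain (fun Y => χ Y o) Cn +
        2 ^ i * (Real.log (8 / 5) - Real.log 4 * (e + ∑ k ∈ Finset.range i, η k)) ≤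
      gain (fun Y => χ Y o) (Blk bit J i ++ Cn) := by
  have hl : 0 ≤ Real.log 4 := Real.log_nonneg (by norm_num)
  intro i
  induction i with
  | zero =>
    intro _ Cn e he
    have := (Avg_le_hits χ h1 hc (Cn.map Prod.fst) o).trans (he o)
    have := mul_le_mul_of_nonneg_left this hl
    simp only [Blk, List.singleton_append, gain, pow_zero, one_mul, Finset.range_zero,
      Finset.sum_empty, add_zero]
    linarith
  | succ i ih =>
    intro hi Cn e he
    have ih := ih (by omega)
    have a1 := ih Cn e he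
    have a2 := ih ((J i).map (fun h => (h, false)) ++ (Blk bit J i ++ Cn)) (η i + e) (by
      intro x
      rw [List.map_append, map_fst_false, List.map_append, ← List.append_assoc, hits_append]
      have := hη i (by omega) x
      have := mk_le (J i ++ (Blk bit J i).map Prod.fst) _ e he x
      linarith)
    rw [gain_false] at a2
    simp only [Blk, List.append_assoc]
    rw [Finset.sum_range_succ, pow_succ]
    have a3 : (0 : ℝ) ≤ 2 ^ i * (Real.log 4 * η i) := by have := hη0 i; positivity
    nlinarith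

theorem Blk_special (bit : Γ) (J : ℕ → List Γ) (i : ℕ) :
    ∀ p ∈ Blk bit J i, p.2 = true → p.1 = bit := by
  induction i with
  | zero => simp [Blk]
  | succ i ih =>
    intro p hp h
    simp only [Blk, List.mem_append, List.mem_map] at hp
    rcases hp with hp | ⟨a, _, rfl⟩ | hp
    · exact ih p hp h
    · simp at h
    · exact ih p hp h

theorem Blk_mem (bit : Γ) (J : ℕ → List Γ) (P : Γ → Prop) (hb : P bit)
    (hJ : ∀ i, ∀ h ∈ J i, P h) (i : ℕ) : ∀ p ∈ Blk bit J i, P p.1 := by
  induction i with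
  | zero => simpa [Blk] using hb
  | succ i ih =>
    intro p hp
    simp only [Blk, List.mem_append, List.mem_map] at hp
    rcases hp with hp | ⟨a, ha, rfl⟩ | hp
    · exact ih p hp
    · exact hJ i a ha
    · exact ih p hp

/-- additive functionals of the hierarchical word -/
theorem Blk_additive (bit : Γ) (J : ℕ → List Γ) (T : List Γ → ℝ)
    (hT : ∀ L L', T (L ++ L') = T L + T L') (i : ℕ) :
    T ((Blk bit J i).map Prod.fst) =
      2 ^ i * (T [bit] + ∑ k ∈ Finset.range i, T (J k) / 2 ^ (k + 1)) := by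
  induction i with
  | zero => simp [Blk]
  | succ i ih =>
    simp only [Blk, List.map_append, map_fst_false, hT, ih, Finset.sum_range_succ]
    field_simp
    ring

end Blocks

theorem sum_half_div (D : ℕ) (hD : 0 < D) (n : ℕ) :
    ∑ u ∈ Finset.range n, (1 / 2 : ℝ) ^ (u / D) ≤ 2 * D := by
  have key : ∀ k, ∑ u ∈ Finset.range (D * k), (1 / 2 : ℝ) ^ (u / D) = D * (2 - 2 * (1 / 2) ^ k) := by
    intro k
    induction k with
    | zero => simp
    | succ k ih =>
      rw [show D * (k + 1) = D * k + D by ring, Finset.sum_range_add, ih]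
      have : ∀ v ∈ Finset.range D, (1 / 2 : ℝ) ^ ((D * k + v) / D) = (1 / 2) ^ k := by
        intro v hv
        rw [Nat.mul_add_div hD, Nat.div_eq_of_lt (Finset.mem_range.1 hv), add_zero]
      rw [Finset.sum_congr rfl this]
      simp only [Finset.sum_const, Finset.card_range, nsmul_eq_mul]
      ring
  have h1 : ∑ u ∈ Finset.range n, (1 / 2 : ℝ) ^ (u / D) ≤
      ∑ u ∈ Finset.range (D * n), (1 / 2 : ℝ) ^ (u / D) := by
    apply Finset.sum_le_sum_of_subset_of_nonneg
    · apply Finset.range_mono; nlinarith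
    · intros; positivity
  rw [key] at h1
  have : (0 : ℝ) ≤ D * (1 / 2) ^ n := by positivity
  nlinarith

theorem sum_half_div' (D : ℕ) (hD : 0 < D) (I i : ℕ) (hi : i ≤ I) :
    ∑ k ∈ Finset.range i, (1 / 2 : ℝ) ^ ((I - 1 - k) / D) ≤ 2 * D := by
  have h1 := Finset.sum_range_reflect (fun u => (1 / 2 : ℝ) ^ (u / D)) I
  have h2 := sum_half_div D hD I
  rw [← h1] at h2
  refine le_trans ?_ h2
  apply Finset.sum_le_sum_of_subset_of_nonneg (Finset.range_mono hi)
  intros; positivity

end Pool.Agent.MP_fbbd83_al
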