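import Pool.Agent.MP_fbbd83_al.Tree

/-! The lower bound. -/

namespace Pool.Agent.MP_fbbd83_al

variable (ω : ℕ → Fin 3)

def sel (n : ℕ) : Fin 3 := if ω (n - 1) = 2 then 1 else 0

theorem col_sel (n : ℕ) : col (ω (n - 1)) (sel ω n) = true := by
  unfold sel
  rcases fin3_cases (ω (n - 1)) with h | h | h <;> simp [h, col]

def gT (n : ℕ) : Tr := evT ω (pw (Zw n ω [sel ω n]))

theorem gT_sec (n : ℕ) : Sec n ω (sel ω n) (gT ω n).1 := by
  have : ((gT ω n).1 : List Bool → List Bool) = run ω (pw (Zw n ω [sel ω n])) :=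
    funext (evP_apply ω _)
  rw [this]
  exact sec_Zw n ω _ (Or.inr (col_sel ω n))

theorem gT_ball (n : ℕ) : InBall ω (lenSum ω n) (gT ω n).1 :=
  ⟨_, by rw [length_pw, length_Zw]; exact ell_tri ω n _, rfl⟩

theorem gT_lev {N n : ℕ} (hn : n < N) : Lev (Cyl N) (gT ω n) n :=
  lev_of_sec _ (gT_sec ω n) hn

theorem gT_good {N n : ℕ} (hN : ω N = 2) (hn : n < N) (h : ω (n - 1) = 0) (y : VN N) :
    chi N (gT ω n) y = false := by
  by_contra hc
  have := (chi_of_sec _ (gT_sec ω n) hn y (by simpa using hc)).1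
  simp [sel, h, hN, col] at this

theorem sum_ind {α : Type} (A : Finset α) (p : α → Bool) :
    ∑ y ∈ A, ind (p y) = ((A.filter (fun y => p y = true)).card : ℝ) := by
  simp [ind]

theorem gT_cyl {N n : ℕ} (hn : n < N) (x : VN N) :
    ∑ y ∈ Cyl N x (n + 1), ind (chi N (gT ω n) y) ≤ 1 := by
  rw [sum_ind]
  have : ((Cyl N x (n + 1)).filter (fun y => chi N (gT ω n) y = true)).card ≤ 1 := by
    rw [Finset.card_le_one]
    intro y hy z hz
    rw [Finset.mem_filter, mem_Cyl] at hy hz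
    have h1 := (chi_of_sec _ (gT_sec ω n) hn y hy.2).2
    have h2 := (chi_of_sec _ (gT_sec ω n) hn z hz.2).2
    apply Subtype.ext
    rw [← List.take_append_drop (n + 1) y.1, ← List.take_append_drop (n + 1) z.1, h1, h2,
      hy.1, hz.1]
  exact_mod_cast this

theorem card_VN (m : ℕ) : Fintype.card (VN m) = 2 ^ m := by
  have : Fintype.card (List.Vector Bool m) = 2 ^ m := by simp
  exact this

theorem gT_tot {N n : ℕ} (hn : n < N) : tot (chi N) [gT ω n] ≤ 2 ^ (n + 1) := by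
  rw [tot_single, sum_ind]
  have : ((Finset.univ : Finset (VN N)).filter (fun y => chi N (gT ω n) y = true)).card ≤
      (Finset.univ : Finset (VN (n + 1))).card := by
    apply Finset.card_le_card_of_injOn
      (fun y => (⟨y.1.take (n + 1), by rw [List.length_take, y.2]; omega⟩ : VN (n + 1)))
    · intro y _; exact Finset.mem_coe.2 (Finset.mem_univ (α := VN (n + 1)) _)
    · intro y hy z hz e
      simp only [Finset.coe_filter, Finset.mem_univ, true_and, Set.mem_ofPred_eq] at hy hz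
      have h1 := (chi_of_sec _ (gT_sec ω n) hn y hy).2
      have h2 := (chi_of_sec _ (gT_sec ω n) hn z hz).2
      have e' : y.1.take (n + 1) = z.1.take (n + 1) := congrArg Subtype.val e
      apply Subtype.ext
      rw [← List.take_append_drop (n + 1) y.1, ← List.take_append_drop (n + 1) z.1, h1, h2, e']
  rw [Finset.card_univ, card_VN] at this
  exact_mod_cast this

def bit : Tr := evT ω [some 1]

def oo (N : ℕ) : VN N := ⟨List.replicate N true, by simp⟩

theorem genFun_replicate (s : Fin 3) (N : ℕ) (ω : ℕ → Fin 3) :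
    genFun s (List.replicate N true) ω = List.replicate N true := by
  induction N generalizing ω with
  | zero => rfl
  | succ N ih => simp [List.replicate_succ, genFun, ih]

theorem bit_fun : ((bit ω).1 : List Bool → List Bool) = fun w => genFun 1 w ω :=
  funext (evP_apply ω _)

theorem bit_smul (N : ℕ) : bit ω • oo N = oo N := by
  apply Subtype.ext
  rw [smul_val, bit_fun]
  exact genFun_replicate 1 N ω

theorem chi_bit {N : ℕ} (hN : ω N = 2) (y : VN N) : chi N (bit ω) y = decide (y = oo N) := by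
  unfold chi
  rw [bit_fun, chiF_gen, y.2, hN]
  have : col 2 1 = true := rfl
  rw [this, Bool.and_true]
  congr 1
  exact propext ⟨fun h => Subtype.ext h, fun h => congrArg Subtype.val h⟩

theorem bit_tot {N : ℕ} (hN : ω N = 2) : tot (chi N) [bit ω] = 1 := by
  rw [tot_single]
  simp [chi_bit ω hN, ind]

theorem bit_ball : InBall ω 1 (bit ω).1 := ⟨_, le_rfl, rfl⟩

def Ql : ℕ → List ℕ
  | 0 => []
  | m + 1 => (m + 1) :: Ql m

theorem mem_Ql (m n : ℕ) (h : n ∈ Ql m) : n ≤ m := by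
  induction m with
  | zero => simp [Ql] at h
  | succ m ih =>
    simp only [Ql, List.mem_cons] at h
    rcases h with h | h
    · omega
    · have := ih h; omega

theorem pairwise_Ql (m : ℕ) : (Ql m).Pairwise (· > ·) := by
  induction m with
  | zero => simp [Ql]
  | succ m ih =>
    simp only [Ql, List.pairwise_cons]
    exact ⟨fun n hn => by have := mem_Ql m n hn; omega, ih⟩

theorem length_Ql (m : ℕ) : (Ql m).length = m := by
  induction m with
  | zero => rfl
  | succ m ih => simp [Ql, ih]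

theorem hits_Ql {N : ℕ} (m : ℕ) (hm : m < N) (x : VN N) :
    ∑ y ∈ Cyl N x (m + 1), hits (chi N) ((Ql m).map (gT ω)) y ≤ 2 := by
  induction m with
  | zero => simp [Ql, hits]
  | succ m ih =>
    have ih := ih (by omega)
    have a1 := gT_cyl ω hm x
    have a2 := lev_sum (Cyl N) (Cyl_mono N) (gT ω (m + 1)) (m + 1) (gT_lev ω hm)
      (hits (chi N) ((Ql m).map (gT ω))) (hits_nonneg _ _) x
    simp only [Ql, List.map_cons, hits]
    rw [Finset.sum_add_distrib, ← Finset.sum_div]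
    linarith

theorem tot_Ql {N : ℕ} (m : ℕ) (hm : m < N) :
    tot (chi N) ((Ql m).map (gT ω)) ≤ 2 ^ (m + 2) - 4 := by
  induction m with
  | zero => simp [Ql, tot, hits]; norm_num
  | succ m ih =>
    have ih := ih (by omega)
    have a1 := gT_tot ω hm
    have : (Ql (m + 1)).map (gT ω) = [gT ω (m + 1)] ++ (Ql m).map (gT ω) := rfl
    rw [this, tot_append]
    have e : (2 : ℝ) ^ (m + 1 + 2) = 2 ^ (m + 1 + 1) + 2 ^ (m + 2) := by ring
    linarith

/-! ### word lengths -/

noncomputable def wl (g : Tr) : ℕ := sInf {n | InBall ω n g.1}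

theorem wl_le {g : Tr} {n : ℕ} (h : InBall ω n g.1) : wl ω g ≤ n := Nat.sInf_le h

theorem wl_spec {g : Tr} {n : ℕ} (h : InBall ω n g.1) : InBall ω (wl ω g) g.1 :=
  Nat.sInf_mem (s := {n | InBall ω n g.1}) ⟨n, h⟩

theorem Val_ball [DecidableEq Tr] (L : List (Tr × Bool)) (hL : ∀ p ∈ L, ∃ n, InBall ω n p.1.1) :
    ∀ Y ∈ Val L, InBall ω (((L.map Prod.fst).map (wl ω)).sum) Y.1 := by
  induction L with
  | nil =>
    intro Y hY
    simp only [Val, Finset.mem_singleton] at hY
    subst hY; exact InBall.one ω _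
  | cons p L ih =>
    have ih := ih (fun q hq => hL q (List.mem_cons_of_mem _ hq))
    obtain ⟨n, hn⟩ := hL p List.mem_cons_self
    intro Y hY
    simp only [Val, Finset.mem_union, Finset.mem_image] at hY
    simp only [List.map_cons, List.sum_cons]
    rcases hY with hY | ⟨Z, hZ, rfl⟩
    · exact (ih Y hY).mono (by omega)
    · rw [add_comm]
      exact (ih Z hZ).mul (wl_spec ω hn)

theorem cost_levels (ns : List ℕ) : ∀ M, ns.Pairwise (· > ·) → (∀ n ∈ ns, n < M) →
    ((ns.map (gT ω)).map (wl ω)).sum ≤ lenSum ω M := by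
  induction ns with
  | nil => simp
  | cons n ns ih =>
    intro M hp hM
    rw [List.pairwise_cons] at hp
    have a1 := ih n hp.2 hp.1
    have a2 := wl_le ω (gT_ball ω n)
    have a3 := lenSum_two ω n
    have a4 := lenSum_mono ω (show n + 1 ≤ M from hM n List.mem_cons_self)
    simp only [List.map_cons, List.sum_cons]
    omega

section Homog

variable {ω} {r : ℕ} (h : Homogeneous r ω)

noncomputable def pk (n : ℕ) : ℕ := n + (h n 0).choose + 1

theorem pk_spec (n : ℕ) : n + 1 ≤ pk h n ∧ pk h n ≤ n + r ∧ ω (pk h n - 1) = 0 := by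
  have := (h n 0).choose_spec
  unfold pk
  refine ⟨by omega, by omega, ?_⟩
  simpa using this.2

noncomputable def Pl (i : ℕ) : ℕ → List ℕ
  | 0 => []
  | M + 1 => pk h (i + r * M) :: Pl i M

theorem mem_Pl (i M n : ℕ) (hn : n ∈ Pl h i M) : i + 1 ≤ n ∧ n ≤ i + r * M ∧ ω (n - 1) = 0 := by
  induction M with
  | zero => simp [Pl] at hn
  | succ M ih =>
    simp only [Pl, List.mem_cons] at hn
    rcases hn with rfl | hn
    · obtain ⟨a, b, c⟩ := pk_spec h (i + r * M)
      exact ⟨by omega, by rw [mul_add]; omega, c⟩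
    · obtain ⟨a, b, c⟩ := ih hn
      exact ⟨a, by rw [mul_add]; omega, c⟩

theorem pairwise_Pl (i M : ℕ) : (Pl h i M).Pairwise (· > ·) := by
  induction M with
  | zero => simp [Pl]
  | succ M ih =>
    simp only [Pl, List.pairwise_cons]
    refine ⟨fun n hn => ?_, ih⟩
    have := (mem_Pl h i M n hn).2.1
    have := (pk_spec h (i + r * M)).1
    omega

theorem length_Pl (i M : ℕ) : (Pl h i M).length = M := by
  induction M with
  | zero => rfl
  | succ M ih => simp [Pl, ih]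

noncomputable def Jl (i M m : ℕ) : List ℕ := Pl h i M ++ Ql m

theorem pairwise_Jl (i M m : ℕ) (hm : m ≤ i) : (Jl h i M m).Pairwise (· > ·) := by
  unfold Jl
  rw [List.pairwise_append]
  refine ⟨pairwise_Pl h i M, pairwise_Ql m, fun a ha b hb => ?_⟩
  have := (mem_Pl h i M a ha).1
  have := mem_Ql m b hb
  omega

theorem mem_Jl (i M m n : ℕ) (hm : m ≤ i) (hn : n ∈ Jl h i M m) : n ≤ i + r * M := by
  unfold Jl at hn
  rcases List.mem_append.1 hn with hn | hn
  · exact (mem_Pl h i M n hn).2.1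
  · have := mem_Ql m n hn; omega

theorem hits_Pl {N : ℕ} (hN : ω N = 2) (i M : ℕ) (hi : i + r * M < N) (x : VN N) :
    hits (chi N) ((Pl h i M).map (gT ω)) x = 0 := by
  apply hits_good
  intro g hg y
  obtain ⟨n, hn, rfl⟩ := List.mem_map.1 hg
  obtain ⟨_, b, c⟩ := mem_Pl h i M n hn
  exact gT_good ω hN (by omega) c y

theorem hits_Jl {N : ℕ} (hN : ω N = 2) (i M m : ℕ) (hm : m ≤ i) (hi : i + r * M < N) (x : VN N) :
    hits (chi N) ((Jl h i M m).map (gT ω)) x ≤ 2 * (1 / 2) ^ M := by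
  unfold Jl
  rw [List.map_append, hits_append, hits_Pl h hN i M hi, zero_add]
  have a1 := cube (Cyl N) (Cyl_mono N) (gT ω) (hits (chi N) ((Ql m).map (gT ω)))
    (hits_nonneg _ _) (m + 1) x (Pl h i M) N (pairwise_Pl h i M) (fun n hn => by
      obtain ⟨a, b, _⟩ := mem_Pl h i M n hn
      exact ⟨by omega, by omega, gT_lev ω (by omega)⟩) (by omega)
  have a2 := hits_Ql ω m (show m < N by omega) x
  have a3 := Finset.single_le_sum (f := mk ((Pl h i M).map (gT ω))
    (hits (chi N) ((Ql m).map (gT ω)))) (fun y _ => mk_nonneg _ _ (hits_nonneg _ _) y)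
    (self_mem_Cyl N x N)
  rw [length_Pl] at a1
  have a4 : (0 : ℝ) < (1 / 2) ^ M := by positivity
  nlinarith

theorem tot_Jl {N : ℕ} (hN : ω N = 2) (i M m : ℕ) (hm : m ≤ i) (hi : i + r * M < N) :
    tot (chi N) ((Jl h i M m).map (gT ω)) ≤ 2 ^ (m + 2) - 4 := by
  unfold Jl
  rw [List.map_append, tot_append]
  have : tot (chi N) ((Pl h i M).map (gT ω)) = 0 := by
    simp [tot, hits_Pl h hN i M hi]
  rw [this, zero_add]
  exact tot_Ql ω m (by omega)

theorem mk_Jl {N : ℕ} (i M m : ℕ) (hm : m ≤ i) (hi : i + r * M < N) (f : VN N → ℝ)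
    (hf : ∀ y, 0 ≤ f y) (x : VN N) :
    mk ((Jl h i M m).map (gT ω)) f x ≤ (1 / 2) ^ (M + m) * ∑ y, f y := by
  have a1 := cube (Cyl N) (Cyl_mono N) (gT ω) f hf 0 x (Jl h i M m) N (pairwise_Jl h i M m hm)
    (fun n hn => by
      have := mem_Jl h i M m n hm hn
      exact ⟨by omega, by omega, gT_lev ω (by omega)⟩) (by omega)
  have a3 := Finset.single_le_sum (f := mk ((Jl h i M m).map (gT ω)) f)
    (fun y _ => mk_nonneg _ _ hf y) (self_mem_Cyl N x N)
  have a4 : (Jl h i M m).length = M + m := by simp [Jl, length_Pl, length_Ql]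
  have a5 : Cyl N x 0 = Finset.univ := by ext y; simp [mem_Cyl]
  rw [a4, a5] at a1
  linarith

/-- the jumps -/
noncomputable def Jmp (D A I i : ℕ) : List Tr :=
  (Jl h i (2 * ((I - 1 - i) / D) + A) (i - (I - 1 - i) / D)).map (gT ω)

theorem level_bound (D A I i : ℕ) (hi : i ≤ I) :
    i + r * (2 * ((I - 1 - i) / D) + A) ≤ I + r * (2 * I + A) := by
  have : (I - 1 - i) / D ≤ I := (Nat.div_le_self _ _).trans (by omega)
  have : r * (2 * ((I - 1 - i) / D) + A) ≤ r * (2 * I + A) := Nat.mul_le_mul_left _ (by omega)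
  omega

theorem tot_Blk {N : ℕ} (hN : ω N = 2) (D A I : ℕ) (hD : 0 < D) (hI : I + r * (2 * I + A) < N)
    (i : ℕ) (hi : i ≤ I) :
    tot (chi N) ((Blk (bit ω) (Jmp h D A I) i).map Prod.fst) ≤ 2 ^ i * (1 + 4 * D) := by
  rw [Blk_additive _ _ (tot (chi N)) (tot_append _), bit_tot ω hN]
  have a1 : ∀ k ∈ Finset.range i, tot (chi N) (Jmp h D A I k) / 2 ^ (k + 1) ≤
      2 * (1 / 2) ^ ((I - 1 - k) / D) := by
    intro k hk
    have hk := Finset.mem_range.1 hk
    have := level_bound (r := r) D A I k (by omega)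
    have a2 := tot_Jl h hN k (2 * ((I - 1 - k) / D) + A) (k - (I - 1 - k) / D) (Nat.sub_le _ _) (by omega)
    rw [div_le_iff₀ (by positivity)]
    refine le_trans a2 ?_
    generalize (I - 1 - k) / D = q
    by_cases hq : q ≤ k
    · obtain ⟨m, rfl⟩ := Nat.exists_eq_add_of_le hq
      rw [Nat.add_sub_cancel_left]
      have : (2 : ℝ) * (1 / 2) ^ q * 2 ^ (q + m + 1) = 2 ^ (m + 2) := by
        rw [one_div, inv_pow]; field_simp; ring
      rw [this]; linarith
    · rw [show k - q = 0 by omega]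
      have : (0 : ℝ) ≤ 2 * (1 / 2) ^ q * 2 ^ (k + 1) := by positivity
      norm_num at this ⊢
  have a2 := Finset.sum_le_sum a1
  rw [← Finset.mul_sum] at a2
  have a3 := sum_half_div' D hD I i hi
  have : (0 : ℝ) < 2 ^ i := by positivity
  nlinarith

theorem eta_bound {N : ℕ} (hN : ω N = 2) (D A I : ℕ) (hD : 0 < D) (hI : I + r * (2 * I + A) < N)
    (i : ℕ) (hi : i < I) (x : VN N) :
    hits (chi N) (Jmp h D A I i ++ (Blk (bit ω) (Jmp h D A I) i).map Prod.fst) x ≤
      (3 + 4 * D) * (1 / 2) ^ A * (1 / 2) ^ ((I - 1 - i) / D) := by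
  have hl := level_bound (r := r) D A I i hi.le
  have a0 := tot_Blk h hN D A I hD hI i hi.le
  rw [hits_append]
  have a1 := hits_Jl h hN i (2 * ((I - 1 - i) / D) + A) (i - (I - 1 - i) / D) (Nat.sub_le _ _)
    (by omega) x
  have a2 := mk_Jl h (N := N) i (2 * ((I - 1 - i) / D) + A) (i - (I - 1 - i) / D) (Nat.sub_le _ _)
    (by omega) (hits (chi N) ((Blk (bit ω) (Jmp h D A I) i).map Prod.fst)) (hits_nonneg _ _) x
  unfold tot at a0
  change hits (chi N) (Jmp h D A I i) x ≤ _ at a1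
  change mk (Jmp h D A I i) _ x ≤ _ at a2
  set q := (I - 1 - i) / D
  have b1 : (1 / 2 : ℝ) ^ (2 * q + A) ≤ (1 / 2) ^ A * (1 / 2) ^ q := by
    rw [← pow_add]
    exact pow_le_pow_of_le_one (by norm_num) (by norm_num) (by omega)
  have b2 : (1 / 2 : ℝ) ^ (2 * q + A + (i - q)) * 2 ^ i ≤ (1 / 2) ^ A * (1 / 2) ^ q := by
    have c1 : (1 / 2 : ℝ) ^ (2 * q + A + (i - q)) ≤ (1 / 2) ^ (A + q + i) :=
      pow_le_pow_of_le_one (by norm_num) (by norm_num) (by omega)
    have c2 : (1 / 2 : ℝ) ^ (A + q + i) * 2 ^ i = (1 / 2) ^ A * (1 / 2) ^ q := by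
      rw [pow_add, pow_add, mul_assoc, ← mul_pow]; norm_num
    rw [← c2]
    exact mul_le_mul_of_nonneg_right c1 (by positivity)
  have b3 : (0 : ℝ) ≤ (1 / 2) ^ (2 * q + A + (i - q)) := by positivity
  have b4 := mul_le_mul_of_nonneg_left a0 b3
  have b5 : (0 : ℝ) ≤ 1 + 4 * D := by positivity
  have b6 := mul_le_mul_of_nonneg_right b2 b5
  nlinarith

theorem cost_Blk (D A I : ℕ) (hD : 0 < D)
    (hs : ∀ n, (2 * 9 ^ r) * 2 ^ D * lenSum ω n ≤ lenSum ω (n + D)) :
    (((Blk (bit ω) (Jmp h D A I) I).map Prod.fst).map (wl ω)).sum ≤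
      (1 + 2 * D * 3 ^ (r * A + 1)) * lenSum ω I := by
  have e := Blk_additive (bit ω) (Jmp h D A I) (fun L => (((L.map (wl ω)).sum : ℕ) : ℝ))
    (by intro L L'; simp) I
  have a1 : ∀ k ∈ Finset.range I,
      2 ^ I * (((((Jmp h D A I k).map (wl ω)).sum : ℕ) : ℝ) / 2 ^ (k + 1)) ≤
      (3 ^ (r * A + 1) * lenSum ω I) * (1 / 2) ^ ((I - 1 - k) / D) := by
    intro k hk
    have hk := Finset.mem_range.1 hk
    obtain ⟨u, rfl⟩ : ∃ u, I = k + 1 + u := ⟨I - 1 - k, by omega⟩
    rw [show k + 1 + u - 1 - k = u by omega]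
    have b1 : ((Jmp h D A (k + 1 + u) k).map (wl ω)).sum ≤
        lenSum ω (k + (r * (2 * (u / D) + A) + 1)) := by
      unfold Jmp
      rw [show k + 1 + u - 1 - k = u by omega]
      apply cost_levels ω _ _ (pairwise_Jl h _ _ _ (Nat.sub_le _ _))
      intro n hn
      have := mem_Jl h _ _ _ n (Nat.sub_le _ _) hn
      omega
    have b2 := lenSum_three_pow ω k (r * (2 * (u / D) + A) + 1)
    have b3 := slack_pow ω hs k u
    have b4 := lenSum_mono ω (show k + u ≤ k + 1 + u by omega)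
    set q := u / D
    have b5 : 2 ^ q * (2 ^ u * ((Jmp h D A (k + 1 + u) k).map (wl ω)).sum) ≤
        3 ^ (r * A + 1) * lenSum ω (k + 1 + u) := by
      have c1 : 3 ^ (r * (2 * q + A) + 1) = 3 ^ (r * A + 1) * (9 ^ r) ^ q := by
        rw [show (9 : ℕ) = 3 ^ 2 by norm_num, ← pow_mul, ← pow_mul, ← pow_add]
        congr 1; ring
      calc 2 ^ q * (2 ^ u * ((Jmp h D A (k + 1 + u) k).map (wl ω)).sum)
          ≤ 2 ^ q * (2 ^ u * (3 ^ (r * (2 * q + A) + 1) * lenSum ω k)) :=
            Nat.mul_le_mul_left _ (Nat.mul_le_mul_left _ (b1.trans b2))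
        _ = 3 ^ (r * A + 1) * ((2 * 9 ^ r) ^ q * 2 ^ u * lenSum ω k) := by
            rw [c1, mul_pow]; ring
        _ ≤ _ := Nat.mul_le_mul_left _ (b3.trans b4)
    have b6 : (2 : ℝ) ^ q * (2 ^ u * (((Jmp h D A (k + 1 + u) k).map (wl ω)).sum : ℕ)) ≤
        3 ^ (r * A + 1) * lenSum ω (k + 1 + u) := by exact_mod_cast b5
    rw [one_div, inv_pow, ← div_eq_mul_inv, le_div_iff₀ (by positivity)]
    refine le_trans (le_of_eq ?_) b6
    field_simp
    ring
  have a2 := Finset.sum_le_sum a1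
  rw [← Finset.mul_sum, ← Finset.mul_sum] at a2
  have a3 := sum_half_div' D hD I I le_rfl
  have a4 : (wl ω (bit ω) : ℝ) ≤ 1 := by exact_mod_cast wl_le ω (bit_ball ω)
  have a5 : (2 : ℝ) ^ I ≤ lenSum ω I := by
    have := lenSum_ge ω I
    exact_mod_cast (show 2 ^ I ≤ lenSum ω I by omega)
  have a6 : (0 : ℝ) ≤ 3 ^ (r * A + 1) * lenSum ω I := by positivity
  have a7 := mul_le_mul_of_nonneg_left a3 a6
  have a8 : (0 : ℝ) < 2 ^ I := by positivity
  have a9 := mul_le_mul_of_nonneg_left a4 a8.le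
  have : ((((Blk (bit ω) (Jmp h D A I) I).map Prod.fst).map (wl ω)).sum : ℝ) ≤
      (1 + 2 * D * 3 ^ (r * A + 1)) * lenSum ω I := by
    simp only [List.map_cons, List.map_nil, List.sum_cons, List.sum_nil, add_zero] at e
    rw [e]
    nlinarith
  exact_mod_cast this

include h in
theorem growth_ge : ∃ C : ℕ, 0 < C ∧ ∀ I, Real.exp (2 ^ I * (Real.log (8 / 5) / 2)) ≤
    growth (gens ω) (C * lenSum ω I) := by
  classical
  obtain ⟨D, hD, hs⟩ := slack ω h (2 * 9 ^ r)
  have hl4 : 0 < Real.log 4 := Real.log_pos (by norm_num)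
  have hl8 : 0 < Real.log (8 / 5) := Real.log_pos (by norm_num)
  obtain ⟨A, hA⟩ := exists_pow_lt_of_lt_one
    (show 0 < Real.log (8 / 5) / 2 / (Real.log 4 * ((3 + 4 * D) * (2 * D))) by positivity)
    (show (1 / 2 : ℝ) < 1 by norm_num)
  rw [lt_div_iff₀ (by positivity)] at hA
  refine ⟨1 + 2 * D * 3 ^ (r * A + 1), by positivity, fun I => ?_⟩
  obtain ⟨k, _, hN⟩ := h (I + r * (2 * I + A) + 1) 2
  set N := I + r * (2 * I + A) + 1 + k with hNdef
  have hI : I + r * (2 * I + A) < N := by omega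
  have a1 := gain_Blk (chi N) (chi_one N) (chi_mul N) (oo N) (bit ω) (Jmp h D A I)
    (fun i => (3 + 4 * D) * (1 / 2) ^ A * (1 / 2) ^ ((I - 1 - i) / D)) I
    (fun i => by positivity) (eta_bound h hN D A I hD hI) I le_rfl [] 0 (fun x => le_rfl)
  rw [List.append_nil, ← Finset.mul_sum] at a1
  have a2 := sum_half_div' D hD I I le_rfl
  have a3 := gibbs_card (fun Y => chi N Y (oo N)) (Blk (bit ω) (Jmp h D A I) I) (by
    intro p hp hb Y
    rw [Blk_special _ _ _ p hp hb, chi_mul, bit_smul, chi_bit ω hN]; simp)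
  have a4 : 2 ^ I * (Real.log (8 / 5) / 2) ≤
      gain (fun Y => chi N Y (oo N)) (Blk (bit ω) (Jmp h D A I) I) := by
    refine le_trans ?_ a1
    simp only [gain, zero_add]
    apply mul_le_mul_of_nonneg_left _ (by positivity)
    have b1 : (0 : ℝ) ≤ Real.log 4 * ((3 + 4 * D) * (1 / 2) ^ A) := by positivity
    have := mul_le_mul_of_nonneg_left a2 b1
    nlinarith
  refine (Real.exp_le_exp.2 a4).trans (a3.trans ?_)
  have a5 := Val_ball ω (Blk (bit ω) (Jmp h D A I) I)
    (Blk_mem _ _ (fun g : Tr => ∃ n, InBall ω n g.1) ⟨1, bit_ball ω⟩ (by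
      intro i g hg
      obtain ⟨n, _, rfl⟩ := List.mem_map.1 hg
      exact ⟨_, gT_ball ω n⟩) I)
  have a6 := cost_Blk h D A I hD hs
  rw [growth_eq]
  have a7 := Set.ncard_le_ncard_of_injOn (s := (Val (Blk (bit ω) (Jmp h D A I) I) : Set Tr))
    (t := {g | InBall ω ((1 + 2 * D * 3 ^ (r * A + 1)) * lenSum ω I) g}) Subtype.val
    (fun Y hY => (a5 Y hY).mono a6) Subtype.val_injective.injOn (ball_finite ω _)
  rw [Set.ncard_coe_finset] at a7
  exact_mod_cast a7

include h in
theorem lower : Prec (model ω) (growth (gens ω)) := by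
  obtain ⟨C, hC, hg⟩ := growth_ge h
  have hl8 : 0 < Real.log (8 / 5) := Real.log_pos (by norm_num)
  obtain ⟨t, ht⟩ := pow_unbounded_of_one_lt (2 * Real.log 2 / (Real.log (8 / 5) / 2))
    (show (1 : ℝ) < 2 by norm_num)
  rw [div_lt_iff₀ (by positivity)] at ht
  refine ⟨C * 3 ^ t, by positivity, fun n => ?_⟩
  rw [model_eq]
  rcases Nat.eq_zero_or_pos (kap ω n) with h0 | h0
  · rw [h0]; simpa using growth_pos ω _
  · obtain ⟨k, hk⟩ : ∃ k, kap ω n = k + 1 := ⟨kap ω n - 1, by omega⟩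
    have a1 := (kap_spec ω n k).2 (by omega)
    have a2 := lenSum_three_pow ω k t
    have a3 : C * lenSum ω (k + t) ≤ C * 3 ^ t * n := by
      rw [mul_assoc]
      exact Nat.mul_le_mul_left _ (a2.trans (Nat.mul_le_mul_left _ a1))
    refine le_trans ?_ (growth_mono ω a3)
    have a4 := hg (k + t)
    have a5 : ((2 ^ (2 ^ (k + 1)) : ℕ) : ℝ) ≤ Real.exp (2 ^ (k + t) * (Real.log (8 / 5) / 2)) := by
      have : ((2 ^ (2 ^ (k + 1)) : ℕ) : ℝ) = Real.exp (((2 ^ (k + 1) : ℕ) : ℝ) * Real.log 2) := by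
        rw [Real.exp_nat_mul, Real.exp_log (by norm_num)]; push_cast; rfl
      rw [this, Real.exp_le_exp]
      push_cast
      have b1 : (0 : ℝ) < 2 ^ k := by positivity
      have := mul_le_mul_of_nonneg_left ht.le b1.le
      rw [pow_add, pow_add]
      nlinarith
    have a6 : 2 ^ (2 ^ (k + 1)) ≤ growth (gens ω) (C * lenSum ω (k + t)) := by
      exact_mod_cast a5.trans a4
    rw [hk]
    exact (Nat.pow_le_pow_right (by norm_num) (Nat.sub_le _ _)).trans a6

end Homog

end Pool.Agent.MP_fbbd83_al
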