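import Pool.Agent.MP_fbbd83_al.Upper
import Pool.Agent.MP_fbbd83_al.Entropy

/-! Tree automorphisms, the parity cocycle, and the elements `g_n`. -/

namespace Pool.Agent.MP_fbbd83_al

def IsTree (g : Equiv.Perm (List Bool)) : Prop :=
  (∀ v, (g v).length = v.length) ∧ ∀ v, ∃ e, ∀ x, g (v ++ [x]) = g v ++ [xor x e]

def Tr : Subgroup (Equiv.Perm (List Bool)) where
  carrier := {g | IsTree g}
  one_mem' := ⟨fun _ => rfl, fun _ => ⟨false, fun x => by simp⟩⟩
  mul_mem' := by
    rintro g h ⟨hg1, hg2⟩ ⟨hh1, hh2⟩
    refine ⟨fun v => by simp [hg1, hh1], fun v => ?_⟩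
    obtain ⟨e, he⟩ := hh2 v
    obtain ⟨e', he'⟩ := hg2 (h v)
    exact ⟨xor e e', fun x => by simp [he, he']⟩
  inv_mem' := by
    rintro g ⟨hg1, hg2⟩
    refine ⟨fun v => by simpa using (hg1 (g⁻¹ v)).symm, fun v => ?_⟩
    obtain ⟨e, he⟩ := hg2 (g⁻¹ v)
    refine ⟨e, fun x => ?_⟩
    apply g.injective
    rw [he]
    cases x <;> cases e <;> simp

theorem length_flipFun (v : List Bool) : (flipFun v).length = v.length := by
  cases v <;> simp [flipFun]

theorem length_genFun (s : Fin 3) (v : List Bool) (ω : ℕ → Fin 3) :
    (genFun s v ω).length = v.length := by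
  induction v generalizing ω with
  | nil => simp [genFun]
  | cons x v ih =>
    cases x
    · simp only [genFun]; split_ifs <;> simp [length_flipFun]
    · simp [genFun, ih]

theorem flip_step (v : List Bool) : ∃ e, ∀ x, flipFun (v ++ [x]) = flipFun v ++ [xor x e] := by
  cases v with
  | nil => exact ⟨true, fun x => by simp [flipFun]⟩
  | cons y v => exact ⟨false, fun x => by simp [flipFun]⟩

theorem gen_step (s : Fin 3) (v : List Bool) (ω : ℕ → Fin 3) :
    ∃ e, ∀ x, genFun s (v ++ [x]) ω = genFun s v ω ++ [xor x e] := by
  induction v generalizing ω with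
  | nil =>
    refine ⟨false, fun x => ?_⟩
    cases x <;> simp [genFun, flipFun]
  | cons y v ih =>
    cases y
    · by_cases h : col (ω 0) s = true
      · obtain ⟨e, he⟩ := flip_step v
        exact ⟨e, fun x => by simp [genFun, h, he]⟩
      · exact ⟨false, fun x => by simp [genFun, h]⟩
    · obtain ⟨e, he⟩ := ih (shift ω)
      exact ⟨e, fun x => by simp [genFun, he]⟩

theorem letP_mem (ω : ℕ → Fin 3) (x : Option (Fin 3)) : letP ω x ∈ Tr := by
  rcases x with _ | s
  · exact ⟨length_flipFun, flip_step⟩
  · exact ⟨fun v => length_genFun s v ω, fun v => gen_step s v ω⟩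

theorem evP_mem (ω : ℕ → Fin 3) (w : Word) : evP ω w ∈ Tr := by
  induction w with
  | nil => exact Tr.one_mem
  | cons x w ih => exact Tr.mul_mem ih (letP_mem ω x)

def evT (ω : ℕ → Fin 3) (w : Word) : Tr := ⟨evP ω w, evP_mem ω w⟩

def VN (N : ℕ) : Type := {l : List Bool // l.length = N}

instance (N : ℕ) : Fintype (VN N) := inferInstanceAs (Fintype (List.Vector Bool N))

instance (N : ℕ) : DecidableEq (VN N) := inferInstanceAs (DecidableEq {l : List Bool // l.length = N})

instance (N : ℕ) : MulAction Tr (VN N) where
  smul g v := ⟨g.1 v.1, by rw [g.2.1, v.2]⟩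
  one_smul _ := rfl
  mul_smul _ _ _ := rfl

theorem smul_val {N : ℕ} (g : Tr) (v : VN N) : (g • v).1 = g.1 v.1 := rfl

def actF (g : List Bool → List Bool) (u : List Bool) : Bool := (g (u ++ [false])).getLastD false

def chiF (g : List Bool → List Bool) (v : List Bool) : Bool :=
  xor (actF g (v ++ [false])) (actF g (v ++ [true]))

def chi (N : ℕ) (g : Tr) (v : VN N) : Bool := chiF g.1 v.1

theorem tree_step (g : Tr) (v : List Bool) (x : Bool) :
    g.1 (v ++ [x]) = g.1 v ++ [xor x (actF g.1 v)] := by
  obtain ⟨e, he⟩ := g.2.2 v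
  have : actF g.1 v = e := by simp [actF, he]
  rw [this, he]

theorem actF_mul (g h : Tr) (u : List Bool) :
    actF (g * h).1 u = xor (actF h.1 u) (actF g.1 (h.1 u)) := by
  have : (g * h).1 (u ++ [false]) = g.1 (h.1 u) ++ [xor (actF h.1 u) (actF g.1 (h.1 u))] := by
    show g.1 (h.1 (u ++ [false])) = _
    rw [tree_step, tree_step]; simp
  conv_lhs => unfold actF
  rw [this]; simp

theorem chi_one (N : ℕ) (v : VN N) : chi N 1 v = false := by
  simp [chi, chiF, actF]

theorem chi_mul (N : ℕ) (g h : Tr) (v : VN N) :
    chi N (g * h) v = xor (chi N h v) (chi N g (h • v)) := by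
  simp only [chi, chiF, actF_mul, smul_val, tree_step]
  cases actF h.1 v.1 <;> cases actF h.1 (v.1 ++ [false]) <;> cases actF h.1 (v.1 ++ [true]) <;>
    simp [Bool.xor_comm]

def Cyl (N : ℕ) (x : VN N) (m : ℕ) : Finset (VN N) :=
  Finset.univ.filter (fun y => y.1.take m = x.1.take m)

theorem mem_Cyl {N : ℕ} {x y : VN N} {m : ℕ} : y ∈ Cyl N x m ↔ y.1.take m = x.1.take m := by
  simp [Cyl]

theorem Cyl_mono (N : ℕ) (x : VN N) (m M : ℕ) (h : m ≤ M) : Cyl N x M ⊆ Cyl N x m := by
  intro y hy
  rw [mem_Cyl] at hy ⊢
  have := congrArg (List.take m) hy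
  simpa [List.take_take, min_eq_left h] using this

theorem self_mem_Cyl (N : ℕ) (x : VN N) (m : ℕ) : x ∈ Cyl N x m := mem_Cyl.2 rfl

/-! ### the parity of a generator -/

theorem getLastD_cons_append (x : Bool) (v : List Bool) (y : Bool) :
    (x :: (v ++ [y])).getLastD false = y := by
  rw [← List.cons_append, List.getLastD_concat]

theorem flipFun_cons (x : Bool) (w : List Bool) : flipFun (x :: w) = (!x) :: w := rfl

theorem chiF_gen (s : Fin 3) (v : List Bool) (ω : ℕ → Fin 3) :
    chiF (fun w => genFun s w ω) v =
      (decide (v = List.replicate v.length true) && col (ω v.length) s) := by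
  induction v generalizing ω with
  | nil =>
    by_cases h : col (ω 0) s = true <;> simp [chiF, actF, genFun, h, flipFun]
  | cons x v ih =>
    cases x
    · have key : ∀ y, actF (fun w => genFun s w ω) (false :: v ++ [y]) = false := by
        intro y
        simp only [actF, List.cons_append, genFun]
        split_ifs
        · cases v with
          | nil => simp [flipFun]
          | cons z v =>
            simp only [List.cons_append, flipFun]
            rw [← List.cons_append, getLastD_cons_append]
        · rw [getLastD_cons_append]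
      simp only [chiF, key]
      simp [List.replicate_succ]
    · have key : ∀ y, actF (fun w => genFun s w ω) (true :: v ++ [y]) =
          actF (fun w => genFun s w (shift ω)) (v ++ [y]) := by
        intro y
        obtain ⟨e, he⟩ := gen_step s (v ++ [y]) (shift ω)
        simp only [actF, List.cons_append, genFun, he, getLastD_cons_append]
        simp
      have := ih (shift ω)
      simp only [chiF] at this
      simp only [chiF, key, this]
      simp [List.replicate_succ, shift]

/-! ### the lifting substitution -/

def zeta (i : Fin 3) : List (Fin 3) → List (Fin 3)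
  | [] => []
  | s :: w => (if col i s then [s, s] else [s + 1, s, s + 2]) ++ zeta i w

def Zw : ℕ → (ℕ → Fin 3) → List (Fin 3) → List (Fin 3)
  | 0, _, w => w
  | n + 1, ω, w => zeta (ω 0) (Zw n (shift ω) w)

def pw : List (Fin 3) → Word
  | [] => []
  | s :: w => none :: some s :: pw w

theorem length_pw (w : List (Fin 3)) : (pw w).length = 2 * w.length := by
  induction w with
  | nil => rfl
  | cons s w ih => simp [pw, ih]; omega

theorem pw_append (w w' : List (Fin 3)) : pw (w ++ w') = pw w ++ pw w' := by
  induction w with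
  | nil => rfl
  | cons s w ih => simp [pw, ih]

theorem zeta_append (i : Fin 3) (w w' : List (Fin 3)) :
    zeta i (w ++ w') = zeta i w ++ zeta i w' := by
  induction w with
  | nil => rfl
  | cons s w ih => simp [zeta, ih]

theorem Zw_append (n : ℕ) (ω : ℕ → Fin 3) (w w' : List (Fin 3)) :
    Zw n ω (w ++ w') = Zw n ω w ++ Zw n ω w' := by
  induction n generalizing ω with
  | zero => rfl
  | succ n ih => simp [Zw, ih, zeta_append]

theorem Zw_succ (n : ℕ) (ω : ℕ → Fin 3) (w : List (Fin 3)) :
    Zw (n + 1) ω w = Zw n ω (zeta (ω n) w) := by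
  induction n generalizing ω with
  | zero => rfl
  | succ n ih =>
    rw [Zw, ih (shift ω)]
    rfl

theorem length_Zw (n : ℕ) (ω : ℕ → Fin 3) (s : Fin 3) : (Zw n ω [s]).length = ell ω n s := by
  induction n generalizing s with
  | zero => rfl
  | succ n ih =>
    rw [Zw_succ, ell_succ]
    by_cases h : col (ω n) s = true
    · have : zeta (ω n) [s] = [s] ++ [s] := by simp [zeta, h]
      rw [this, Zw_append, List.length_append, ih, if_pos h]; ring
    · have : zeta (ω n) [s] = [s + 1] ++ ([s] ++ [s + 2]) := by simp [zeta, h]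
      rw [this, Zw_append, Zw_append, List.length_append, List.length_append, ih, ih, ih, if_neg h]
      unfold lenSum
      rcases fin3_cases s with rfl | rfl | rfl
      · simp; ring
      · rw [show (1 + 1 : Fin 3) = 2 from rfl, show (1 + 2 : Fin 3) = 0 from rfl]; ring
      · rw [show (2 + 1 : Fin 3) = 0 from rfl, show (2 + 2 : Fin 3) = 1 from rfl]; ring

def ev (i : Fin 3) : List (Fin 3) → Bool
  | [] => false
  | s :: w => xor (!col i s) (ev i w)

theorem ev_append (i : Fin 3) (w w' : List (Fin 3)) : ev i (w ++ w') = xor (ev i w) (ev i w') := by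
  induction w with
  | nil => simp [ev]
  | cons s w ih => simp [ev, ih]

def fl (b : Bool) (u : List Bool) : List Bool := if b then flipFun u else u

theorem col_succ (i s : Fin 3) (h : ¬ col i s = true) :
    col i (s + 1) = true ∧ col i (s + 2) = true := by
  revert i s; decide

theorem zeta_run (ω : ℕ → Fin 3) (w : List (Fin 3)) (δ : Bool) (u : List Bool) :
    run ω (pw (zeta (ω 0) w)) (δ :: u) =
      xor δ (ev (ω 0) w) :: fl (!(xor δ (ev (ω 0) w))) (run (shift ω) (pw w) (fl (!δ) u)) := by
  induction w generalizing δ u with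
  | nil => cases δ <;> simp [zeta, pw, run, ev, fl, flipFun_invol u]
  | cons s w ih =>
    simp only [zeta, pw_append, run_append]
    by_cases h : col (ω 0) s = true
    · cases δ <;>
        simp [h, pw, run, letFun, flipFun_cons, genFun, ih, ev, fl, flipFun_invol u,
          flipFun_invol (genFun s u (shift ω))]
    · obtain ⟨h1, h2⟩ := col_succ _ _ h
      have h3 : genFun (s + 2) (genFun (s + 1) u (shift ω)) (shift ω) = genFun s u (shift ω) := by
        have e1 : ∀ s : Fin 3, s + 1 ≠ s + 2 := by decide
        have e2 : ∀ s : Fin 3, third (s + 1) (s + 2) = s := by decide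
        rw [genFun_third _ _ (e1 s), e2]
      cases δ <;>
        simp [h, h1, h2, h3, pw, run, letFun, flipFun_cons, genFun, ih, ev, fl, flipFun_invol u,
          flipFun_invol (genFun s (flipFun u) (shift ω))]

def Sec (n : ℕ) (ω : ℕ → Fin 3) (s : Fin 3) (g : List Bool → List Bool) : Prop :=
  ∀ u : List Bool, u.length = n →
    (∀ v, g (u ++ v) = u ++ genFun s (flipFun v) (sh n ω)) ∨
    (∀ v, g (u ++ v) = u ++ flipFun (genFun s v (sh n ω)))

theorem Sec.conj {n : ℕ} {ω : ℕ → Fin 3} {s : Fin 3} {g : List Bool → List Bool}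
    (h : Sec n ω s g) : Sec n ω s (fun v => flipFun (g (flipFun v))) := by
  intro u hu
  cases u with
  | nil =>
    rcases h [] hu with h | h
    · right; intro v
      have := h (flipFun v)
      simp only [List.nil_append] at this ⊢
      rw [this, flipFun_invol v]
    · left; intro v
      have := h (flipFun v)
      simp only [List.nil_append] at this ⊢
      rw [this, flipFun_invol]
  | cons x u =>
    rcases h ((!x) :: u) (by simpa using hu) with h | h
    · left; intro v
      have := h v
      simp only [List.cons_append] at this ⊢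
      simp [flipFun, this]
    · right; intro v
      have := h v
      simp only [List.cons_append] at this ⊢
      simp [flipFun, this]

theorem sh_shift (n : ℕ) (ω : ℕ → Fin 3) : sh n (shift ω) = sh (n + 1) ω := rfl

theorem sec_Zw (n : ℕ) : ∀ (ω : ℕ → Fin 3) (s : Fin 3), (n = 0 ∨ col (ω (n - 1)) s = true) →
    Sec n ω s (run ω (pw (Zw n ω [s]))) := by
  induction n with
  | zero =>
    intro ω s _ u hu
    have : u = [] := List.length_eq_zero_iff.1 hu
    subst this
    left; intro v
    simp [Zw, pw, run, letFun, sh_zero]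
  | succ n ih =>
    intro ω s h
    have h : col (ω n) s = true := by simpa using h
    have ih := ih (shift ω) s (by
      rcases n with _ | n
      · left; rfl
      · right; simpa [shift] using h)
    have he : ev (ω 0) (Zw n (shift ω) [s]) = false := by
      rcases n with _ | n
      · simp [Zw, ev, h]
      · rw [Zw_succ]
        have : zeta (shift ω n) [s] = [s] ++ [s] := by simp [zeta, shift, h]
        rw [this, Zw_append, ev_append]; simp
    intro u hu
    cases u with
    | nil => simp at hu
    | cons x u =>
      have hu' : u.length = n := by simpa using hu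
      simp only [Zw, List.cons_append, zeta_run, he, Bool.xor_false, ← sh_shift]
      cases x
      · rcases ih.conj u hu' with h | h
        · left; intro v; simpa [fl] using h v
        · right; intro v; simpa [fl] using h v
      · rcases ih u hu' with h | h
        · left; intro v; simpa [fl] using h v
        · right; intro v; simpa [fl] using h v

theorem genFun_head (s : Fin 3) (x : Bool) (v : List Bool) (ω : ℕ → Fin 3) :
    ∃ t, genFun s (x :: v) ω = x :: t := by
  cases x <;> exact ⟨_, rfl⟩

theorem Sec.flip {n : ℕ} {ω : ℕ → Fin 3} {s : Fin 3} {g : List Bool → List Bool}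
    (h : Sec n ω s g) (u : List Bool) (hu : u.length = n) (x : Bool) (v : List Bool) :
    ∃ t, g (u ++ x :: v) = u ++ (!x) :: t := by
  rcases h u hu with h | h
  · obtain ⟨t, ht⟩ := genFun_head s (!x) v (sh n ω)
    exact ⟨t, by rw [h, flipFun, ht]⟩
  · obtain ⟨t, ht⟩ := genFun_head s x v (sh n ω)
    exact ⟨t, by rw [h, ht, flipFun]⟩

theorem split_at (y : List Bool) (n : ℕ) (h : n < y.length) :
    ∃ u x v, u.length = n ∧ y = u ++ x :: v := by
  refine ⟨y.take n, y[n], y.drop (n + 1), by simp; omega, ?_⟩
  rw [← List.drop_eq_getElem_cons h, List.take_append_drop]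

theorem lev_of_sec {N n : ℕ} {ω : ℕ → Fin 3} {s : Fin 3} (g : Tr) (h : Sec n ω s g.1)
    (hn : n < N) : Lev (Cyl N) g n := by
  intro x y hy
  obtain ⟨u, b, v, hu, e⟩ := split_at y.1 n (by rw [y.2]; exact hn)
  obtain ⟨t, ht⟩ := h.flip u hu b v
  have hy' := Cyl_mono N x n (n + 1) (by omega) hy
  rw [mem_Cyl] at hy hy'
  rw [mem_Cyl, mem_Cyl, smul_val, ← hy, ← hy', e, ht]
  subst hu
  constructor
  · simp
  · simp [List.take_append, List.take_of_length_le]

theorem getLastD_append_ne (u w : List Bool) (h : w ≠ []) :
    (u ++ w).getLastD false = w.getLastD false := by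
  obtain ⟨w', y, rfl⟩ : ∃ w' y, w = w' ++ [y] := by
    refine ⟨w.dropLast, w.getLast h, (List.dropLast_append_getLast h).symm⟩
  rw [← List.append_assoc]; simp

theorem chi_of_sec {N n : ℕ} {ω : ℕ → Fin 3} {s : Fin 3} (g : Tr) (h : Sec n ω s g.1)
    (hn : n < N) (y : VN N) (hy : chi N g y = true) :
    col (ω N) s = true ∧ y.1.drop (n + 1) = List.replicate (N - n - 1) true := by
  obtain ⟨u, b, v, hu, e⟩ := split_at y.1 n (by rw [y.2]; exact hn)
  have hv : v.length = N - n - 1 := by
    have := y.2; rw [e] at this; simp at this; omega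
  have hd : y.1.drop (n + 1) = v := by rw [e, ← hu]; simp
  have key : ∃ b', chiF (fun w => genFun s w (sh n ω)) (b' :: v) = true := by
    rcases h u hu with h | h
    · refine ⟨!b, ?_⟩
      rw [← hy]
      simp only [chi, chiF, actF, e, List.append_assoc, h, List.cons_append, flipFun]
      rw [getLastD_append_ne u, getLastD_append_ne u]
      all_goals
        intro h0
        have := congrArg List.length h0
        simp [length_genFun] at this
    · refine ⟨b, ?_⟩
      rw [← hy]
      simp only [chi, chiF, actF, e, List.append_assoc, h, List.cons_append]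
      have aux : ∀ w : List Bool, 2 ≤ w.length →
          (u ++ flipFun w).getLastD false = w.getLastD false := by
        intro w hw
        match w, hw with
        | p :: q :: w, _ =>
          rw [getLastD_append_ne u _ (by simp [flipFun])]
          simp [flipFun]
      rw [aux _ (by simp [length_genFun]), aux _ (by simp [length_genFun])]
  obtain ⟨b', hb'⟩ := key
  rw [chiF_gen] at hb'
  simp only [List.length_cons, List.replicate_succ, List.cons.injEq, Bool.and_eq_true,
    decide_eq_true_eq] at hb'
  refine ⟨?_, by rw [hd, ← hv]; exact hb'.1.2⟩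
  have := hb'.2
  simp only [sh] at this
  rwa [show v.length + 1 + n = N by omega] at this

end Pool.Agent.MP_fbbd83_al
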