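import Pool.Agent.MP_fbbd83_al.Words
import Pool.Agent.MP_fbbd83_al.Ell

/-! The upper bound: weighted lengths contract under taking sections. -/

namespace Pool.Agent.MP_fbbd83_al

def sh (n : ℕ) (ω : ℕ → Fin 3) : ℕ → Fin 3 := fun j => ω (j + n)

theorem shift_sh (n : ℕ) (ω : ℕ → Fin 3) : shift (sh n ω) = sh (n + 1) ω := by
  funext j; simp only [shift, sh]; congr 1; omega

theorem sh_zero (ω : ℕ → Fin 3) : sh 0 ω = ω := rfl

theorem sh_apply_zero (n : ℕ) (ω : ℕ → Fin 3) : sh n ω 0 = ω n := by simp [sh]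

variable (ω : ℕ → Fin 3)

/-- sum of the pair weights of the letters other than `a` -/
def Q (n : ℕ) : Word → ℤ
  | [] => 0
  | none :: w => Q n w
  | some s :: w => ell ω n s + Q n w

def wA (n : ℕ) : ℤ := (lenSum ω (n + 1) : ℤ) - 2 * lenSum ω n

def wt (n : ℕ) : Option (Fin 3) → ℤ
  | none => wA ω n
  | some s => ell ω (n + 1) s - wA ω n

def W (n : ℕ) : Word → ℤ
  | [] => 0
  | x :: w => wt ω n x + W n w

theorem wA_nonneg (n : ℕ) : 0 ≤ wA ω n := by
  have := lenSum_two ω n
  unfold wA; omega

theorem wt_nonneg (n : ℕ) (x : Option (Fin 3)) : 0 ≤ wt ω n x := by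
  rcases x with _ | s
  · exact wA_nonneg ω n
  · have h0 := ell_tri ω n 0; have h1 := ell_tri ω n 1; have h2 := ell_tri ω n 2
    unfold lenSum at *
    rcases fin3_cases (ω n) with h | h | h <;> rcases fin3_cases s with rfl | rfl | rfl <;>
      simp [wt, wA, lenSum, ell, h, col] <;> omega

theorem wt_third (n : ℕ) (s t : Fin 3) (hst : s ≠ t) :
    wt ω n (some (third s t)) ≤ wt ω n (some s) + wt ω n (some t) := by
  have h0 := ell_tri ω n 0; have h1 := ell_tri ω n 1; have h2 := ell_tri ω n 2
  have e01 : third 0 1 = 2 := by decide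
  have e02 : third 0 2 = 1 := by decide
  have e10 : third 1 0 = 2 := by decide
  have e12 : third 1 2 = 0 := by decide
  have e20 : third 2 0 = 1 := by decide
  have e21 : third 2 1 = 0 := by decide
  unfold lenSum at *
  rcases fin3_cases (ω n) with h | h | h <;> rcases fin3_cases s with rfl | rfl | rfl <;>
    rcases fin3_cases t with rfl | rfl | rfl <;>
    simp [wt, wA, lenSum, ell, h, col, e01, e02, e10, e12, e20, e21] at hst ⊢ <;> omega

theorem wt_active (n : ℕ) (s : Fin 3) (h : col (ω n) s = true) :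
    wt ω n none + wt ω n (some s) = 2 * ell ω n s := by
  simp [wt, ell_succ, h]

theorem wt_inactive (n : ℕ) (s : Fin 3) (h : ¬ col (ω n) s = true) :
    wt ω n (some s) = 2 * ell ω n s := by
  have h1 : s = inact (ω n) := by simpa [col_iff] using h
  have h2 := lenSum_succ ω n
  rw [← h1] at h2
  simp only [wt, ell_succ, h, wA]
  simp; omega

theorem W_sec (n : ℕ) (w : Word) :
    W ω n (sec (ω n) w false) + W ω n (sec (ω n) w true) = 2 * Q ω n w := by
  induction w with
  | nil => simp [sec, W, Q]
  | cons x w ih =>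
    rcases x with _ | s
    · simp only [sec, Q, Bool.not_false, Bool.not_true]; omega
    · by_cases h : col (ω n) s = true
      · have := wt_active ω n s h
        simp only [sec, h, if_true, W, Q]; omega
      · have := wt_inactive ω n s h
        simp only [sec, h, W, Q]; simp; omega

theorem W_push (n : ℕ) (x : Option (Fin 3)) (w : Word) :
    W ω n (push x w) ≤ wt ω n x + W ω n w := by
  rcases x with _ | s <;> rcases w with _ | ⟨_ | t, w⟩ <;> simp only [push, W, le_refl]
  · have := wt_nonneg ω n none; omega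
  · split_ifs with h
    · have := wt_nonneg ω n (some s); have := wt_nonneg ω n (some t); omega
    · have := wt_third ω n s t h
      simp only [W]; omega

theorem W_red (n : ℕ) (w : Word) : W ω n (red w) ≤ W ω n w := by
  induction w with
  | nil => simp [red]
  | cons x w ih =>
    have : red (x :: w) = push x (red w) := rfl
    rw [this]
    have := W_push ω n x (red w)
    simp only [W]; omega

theorem W_eq (n : ℕ) (w : Word) :
    W ω n w = Q ω (n + 1) w + wA ω n * ((cntA w : ℤ) - cntS w) := by
  induction w with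
  | nil => simp [W, Q, cntA, cntS]
  | cons x w ih => rcases x with _ | s <;> simp only [W, Q, cntA, cntS, wt, ih] <;> push_cast <;> ring

theorem Q_le_W (n : ℕ) (w : Word) (h : Alt w) : Q ω (n + 1) w ≤ W ω n w + wA ω n := by
  have h1 := (alt_cnt w h).1.1
  have h2 := wA_nonneg ω n
  rw [W_eq]
  have : (-1 : ℤ) ≤ (cntA w : ℤ) - cntS w := by omega
  nlinarith

theorem Q_sec (n : ℕ) (w : Word) :
    Q ω (n + 1) (red (sec (ω n) w false)) + Q ω (n + 1) (red (sec (ω n) w true))
      ≤ 2 * Q ω n w + 2 * wA ω n := by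
  have h1 := Q_le_W ω n _ (alt_red (sec (ω n) w false))
  have h2 := Q_le_W ω n _ (alt_red (sec (ω n) w true))
  have h3 := W_red ω n (sec (ω n) w false)
  have h4 := W_red ω n (sec (ω n) w true)
  have h5 := W_sec ω n w
  omega

theorem cntS_le_Q (n : ℕ) (μ : ℤ) (hμ : ∀ s, μ ≤ ell ω n s) (w : Word) :
    μ * cntS w ≤ Q ω n w := by
  induction w with
  | nil => simp [cntS, Q]
  | cons x w ih =>
    rcases x with _ | s
    · simpa [cntS, Q] using ih
    · have := hμ s
      simp only [cntS, Q]; push_cast; nlinarith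

theorem Q_zero (w : Word) : Q ω 0 w = cntS w := by
  induction w with
  | nil => simp [cntS, Q]
  | cons x w ih => rcases x with _ | s <;> simp [cntS, Q, ih, ell]; ring

/-- a string describing the portrait to depth `k` and the reduced sections at depth `k` -/
def enc : ℕ → ℕ → Word → List (Option (Option (Fin 3)))
  | 0, _, w => w.map some ++ [none]
  | k + 1, n, w => (if par w then none else some none) ::
      (enc k (n + 1) (red (sec (ω n) w false)) ++ enc k (n + 1) (red (sec (ω n) w true)))

theorem map_some_inj {α : Type} (w w' : List α) (t t' : List (Option α))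
    (h : w.map some ++ none :: t = w'.map some ++ none :: t') : w = w' ∧ t = t' := by
  induction w generalizing w' with
  | nil => cases w' <;> simp_all
  | cons x w ih =>
    cases w' with
    | nil => simp at h
    | cons y w' =>
      simp only [List.map_cons, List.cons_append, List.cons.injEq, Option.some.injEq] at h
      obtain ⟨h1, h2⟩ := ih w' h.2
      exact ⟨by rw [h.1, h1], h2⟩

theorem enc_inj (k : ℕ) : ∀ (n : ℕ) (w w' : Word) (t t' : List (Option (Option (Fin 3)))),
    enc ω k n w ++ t = enc ω k n w' ++ t' →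
      (∀ v, run (sh n ω) w v = run (sh n ω) w' v) ∧ t = t' := by
  induction k with
  | zero =>
    intro n w w' t t' h
    simp only [enc, List.append_assoc, List.singleton_append] at h
    obtain ⟨h1, h2⟩ := map_some_inj w w' t t' h
    exact ⟨fun v => by rw [h1], h2⟩
  | succ k ih =>
    intro n w w' t t' h
    simp only [enc, List.cons_append, List.cons.injEq, List.append_assoc] at h
    obtain ⟨hp, h⟩ := h
    have hp' : par w = par w' := by
      cases h1 : par w <;> cases h2 : par w' <;> simp_all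
    obtain ⟨h1, h⟩ := ih _ _ _ _ _ h
    obtain ⟨h2, h⟩ := ih _ _ _ _ _ h
    refine ⟨fun v => ?_, h⟩
    cases v with
    | nil => rw [run_nil, run_nil]
    | cons δ v =>
      rw [run_cons, run_cons, hp', shift_sh, sh_apply_zero]
      cases δ
      · have := h1 v
        rw [run_red, run_red] at this; rw [this]
      · have := h2 v
        rw [run_red, run_red] at this; rw [this]

theorem enc_length (k : ℕ) : ∀ (n : ℕ) (w : Word) (μ : ℤ), 0 ≤ μ → Alt w →
    (∀ s, μ ≤ ell ω (n + k) s) →
    μ * (enc ω k n w).length ≤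
      2 * 2 ^ k * (Q ω n w + lenSum ω (n + k) - lenSum ω n) + μ * (3 * 2 ^ k - 1) := by
  induction k with
  | zero =>
    intro n w μ h0 ha hμ
    have h1 := cntS_le_Q ω n μ hμ w
    have h2 := (alt_cnt w ha).1.2
    have h3 := length_eq_cnt w
    have h4 : ((enc ω 0 n w).length : ℤ) ≤ 2 * cntS w + 2 := by
      simp only [enc, List.length_append, List.length_map, List.length_singleton]; omega
    have := mul_le_mul_of_nonneg_left h4 h0
    simp only [add_zero, pow_zero]; nlinarith
  | succ k ih =>
    intro n w μ h0 ha hμ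
    have e : n + (k + 1) = n + 1 + k := by ring
    rw [e] at hμ ⊢
    have h1 := ih (n + 1) _ μ h0 (alt_red (sec (ω n) w false)) hμ
    have h2 := ih (n + 1) _ μ h0 (alt_red (sec (ω n) w true)) hμ
    have h3 := Q_sec ω n w
    have h4 : (0 : ℤ) < 2 ^ k := by positivity
    have h5 : (0 : ℤ) ≤ lenSum ω n := by positivity
    unfold wA at h3
    simp only [enc, List.length_cons, List.length_append]
    push_cast
    have h6 := mul_le_mul_of_nonneg_left h3 h4.le
    have h7 := mul_nonneg h4.le h5
    rw [pow_succ]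
    nlinarith

theorem ncard_le_of_code {X α : Type} [Fintype α] (S : Set X) (f : X → List α) (L : ℕ)
    (hf : Set.InjOn f S) (hL : ∀ g ∈ S, (f g).length ≤ L) :
    S.ncard ≤ (Fintype.card α + 1) ^ L := by
  classical
  let F : X → (Fin L → Option α) := fun g i => (f g)[(i : ℕ)]?
  have hF : Set.InjOn F S := by
    intro g hg g' hg' e
    apply hf hg hg'
    apply List.ext_getElem?
    intro i
    by_cases hi : i < L
    · exact congrFun e ⟨i, hi⟩
    · have := hL g hg; have := hL g' hg'
      rw [List.getElem?_eq_none (by omega), List.getElem?_eq_none (by omega)]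
  have := Set.ncard_le_ncard_of_injOn F (fun a _ => Set.mem_univ (F a)) hF Set.finite_univ
  rw [Set.ncard_univ, Nat.card_eq_fintype_card] at this
  simpa using this

theorem growth_le {r : ℕ} (h : Homogeneous r ω) (n K : ℕ) (hK : n ≤ lenSum ω K) :
    growth (gens ω) n ≤ 6 ^ ((4 * 3 ^ (r + 1) + 3) * 2 ^ K) := by
  classical
  rw [growth_eq]
  let wd : Equiv.Perm (List Bool) → Word := fun g =>
    if hg : InBall ω n g then red hg.choose else []
  have hwd : ∀ g, InBall ω n g → Alt (wd g) ∧ (wd g).length ≤ n ∧ ∀ v, run ω (wd g) v = g v := by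
    intro g hg
    simp only [wd, dif_pos hg]
    refine ⟨alt_red _, (length_red _).trans hg.choose_spec.1, fun v => ?_⟩
    rw [run_red, ← evP_apply, hg.choose_spec.2]
  have := ncard_le_of_code {g | InBall ω n g} (fun g => enc ω K 0 (wd g))
    ((4 * 3 ^ (r + 1) + 3) * 2 ^ K) ?_ ?_
  · simpa using this
  · intro g hg g' hg' e
    have := (enc_inj ω K 0 (wd g) (wd g') [] [] (by simpa using e)).1
    ext1 v
    rw [← (hwd g hg).2.2, ← (hwd g' hg').2.2]
    exact this v
  · intro g hg
    obtain ⟨ha, hl, _⟩ := hwd g hg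
    have hmin : ∃ s, ∀ t, ell ω K s ≤ ell ω K t := Finite.exists_min _
    obtain ⟨s, hs⟩ := hmin
    have h1 := enc_length ω K 0 (wd g) (ell ω K s) (by positivity) ha
      (fun t => by rw [zero_add]; exact_mod_cast hs t)
    rw [Q_zero, zero_add] at h1
    have h2 := length_eq_cnt (wd g)
    have h3 : (lenSum ω K : ℤ) ≤ 3 ^ (r + 1) * ell ω K s := by
      exact_mod_cast lenSum_le_ell ω h K s
    have h4 : (1 : ℤ) ≤ ell ω K s := by exact_mod_cast ell_pos ω K s
    have h5 : (cntS (wd g) : ℤ) + lenSum ω K - lenSum ω 0 ≤ 2 * (3 ^ (r + 1) * ell ω K s) := by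
      omega
    have h6 : (0 : ℤ) < 2 ^ K := by positivity
    have h7 := mul_le_mul_of_nonneg_left h5 h6.le
    have h8 : (ell ω K s : ℤ) * (enc ω K 0 (wd g)).length ≤
        (ell ω K s : ℤ) * ((4 * 3 ^ (r + 1) + 3) * 2 ^ K) := by nlinarith
    have h9 := le_of_mul_le_mul_left h8 (by omega)
    exact_mod_cast h9

theorem upper {r : ℕ} (h : Homogeneous r ω) : Prec (growth (gens ω)) (model ω) := by
  obtain ⟨t, ht⟩ := pow_unbounded_of_one_lt (3 * (4 * 3 ^ (r + 1) + 3)) (show 1 < 2 by norm_num)
  refine ⟨3 ^ (t + 1), by positivity, fun n => ?_⟩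
  rcases Nat.eq_zero_or_pos n with rfl | hn
  · rw [growth_eq]
    have : {g | InBall ω 0 g} = {1} := by
      ext g
      simp only [Set.mem_ofPred_eq, InBall, Set.mem_singleton_iff]
      constructor
      · rintro ⟨w, hw, rfl⟩
        have : w = [] := List.length_eq_zero_iff.1 (by omega)
        subst this; rfl
      · rintro rfl; exact ⟨[], le_rfl, rfl⟩
    rw [this, Set.ncard_singleton, model_eq]
    exact Nat.one_le_two_pow
  · set K := kap ω n with hKdef
    have h1 : n ≤ lenSum ω K := by
      by_contra hc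
      have := (kap_spec ω n K).1 (by omega)
      omega
    have h2 : lenSum ω K ≤ 3 * n := by
      rcases Nat.eq_zero_or_pos K with h0 | h0
      · rw [h0, lenSum_zero]; omega
      · have h3 := (kap_spec ω n (K - 1)).2 (by omega)
        have h4 := lenSum_three ω (K - 1)
        rw [show K - 1 + 1 = K by omega] at h4
        omega
    have h3 : lenSum ω (K + t) ≤ 3 ^ (t + 1) * n := by
      have := lenSum_three_pow ω K t
      calc _ ≤ 3 ^ t * lenSum ω K := this
        _ ≤ 3 ^ t * (3 * n) := Nat.mul_le_mul_left _ h2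
        _ = _ := by ring
    have h4 := (kap_spec ω _ _).1 h3
    have h5 := growth_le ω h n K h1
    rw [model_eq]
    have h6 : 2 ^ (K + t + 1) ≤ 2 ^ kap ω (3 ^ (t + 1) * n) := Nat.pow_le_pow_right (by norm_num) h4
    have h7 : 3 * ((4 * 3 ^ (r + 1) + 3) * 2 ^ K) ≤ 2 ^ kap ω (3 ^ (t + 1) * n) - 1 := by
      have h8 : 0 < 2 ^ K := by positivity
      have h9 : 2 ^ (K + t + 1) = 2 * (2 ^ t * 2 ^ K) := by ring
      have h10 : 3 * (4 * 3 ^ (r + 1) + 3) * 2 ^ K ≤ 2 ^ t * 2 ^ K := Nat.mul_le_mul_right _ ht.le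
      have h11 : 0 < 2 ^ t * 2 ^ K := by positivity
      have h12 : 3 * ((4 * 3 ^ (r + 1) + 3) * 2 ^ K) = 3 * (4 * 3 ^ (r + 1) + 3) * 2 ^ K := by ring
      omega
    calc _ ≤ 6 ^ ((4 * 3 ^ (r + 1) + 3) * 2 ^ K) := h5
      _ ≤ (2 ^ 3) ^ ((4 * 3 ^ (r + 1) + 3) * 2 ^ K) := Nat.pow_le_pow_left (by norm_num) _
      _ = 2 ^ (3 * ((4 * 3 ^ (r + 1) + 3) * 2 ^ K)) := by rw [← pow_mul]
      _ ≤ _ := Nat.pow_le_pow_right (by norm_num) h7

end Pool.Agent.MP_fbbd83_al
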