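import Pool.Agent.MP_fbbd83_al.Defs

/-! Words in the generators, sections and reduction. -/

namespace Pool.Agent.MP_fbbd83_al

abbrev Word := List (Option (Fin 3))

def letFun (ω : ℕ → Fin 3) : Option (Fin 3) → List Bool → List Bool
  | none, v => flipFun v
  | some s, v => genFun s v ω

def letP (ω : ℕ → Fin 3) : Option (Fin 3) → Equiv.Perm (List Bool)
  | none => genA
  | some s => genS ω s

/-- the head of the word acts first -/
def run (ω : ℕ → Fin 3) : Word → List Bool → List Bool
  | [], v => v
  | x :: w, v => run ω w (letFun ω x v)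

def evP (ω : ℕ → Fin 3) : Word → Equiv.Perm (List Bool)
  | [] => 1
  | x :: w => evP ω w * letP ω x

theorem letP_apply (ω : ℕ → Fin 3) (x : Option (Fin 3)) (v : List Bool) :
    letP ω x v = letFun ω x v := by
  cases x <;> rfl

theorem evP_apply (ω : ℕ → Fin 3) (w : Word) (v : List Bool) : evP ω w v = run ω w v := by
  induction w generalizing v with
  | nil => rfl
  | cons x w ih => simp [evP, run, ih, letP_apply]

theorem evP_append (ω : ℕ → Fin 3) (w w' : Word) : evP ω (w ++ w') = evP ω w' * evP ω w := by
  induction w with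
  | nil => simp [evP]
  | cons x w ih => simp [evP, ih, mul_assoc]

theorem run_append (ω : ℕ → Fin 3) (w w' : Word) (v : List Bool) :
    run ω (w ++ w') v = run ω w' (run ω w v) := by
  induction w generalizing v with
  | nil => rfl
  | cons x w ih => simp [run, ih]

theorem evP_eq_prod (ω : ℕ → Fin 3) (w : Word) : evP ω w = (w.map (letP ω)).reverse.prod := by
  induction w with
  | nil => simp [evP]
  | cons x w ih => simp [evP, ih]

def InBall (ω : ℕ → Fin 3) (n : ℕ) (g : Equiv.Perm (List Bool)) : Prop :=
  ∃ w : Word, w.length ≤ n ∧ evP ω w = g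

theorem mem_gens_iff (ω : ℕ → Fin 3) (x : Equiv.Perm (List Bool)) :
    x ∈ gens ω ↔ ∃ y, letP ω y = x := by
  constructor
  · intro h
    simp only [gens, Set.mem_insert_iff, Set.mem_singleton_iff] at h
    rcases h with h | h | h | h
    · exact ⟨none, h.symm⟩
    · exact ⟨some 0, h.symm⟩
    · exact ⟨some 1, h.symm⟩
    · exact ⟨some 2, h.symm⟩
  · rintro ⟨y, rfl⟩
    rcases y with _ | s
    · simp [gens, letP]
    · fin_cases s <;> simp [gens, letP]

theorem ball_eq (ω : ℕ → Fin 3) (n : ℕ) :
    {g : Equiv.Perm (List Bool) | ∃ l : List (Equiv.Perm (List Bool)),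
      l.length ≤ n ∧ (∀ x ∈ l, x ∈ gens ω) ∧ l.prod = g} = {g | InBall ω n g} := by
  ext g
  simp only [Set.mem_ofPred_eq, InBall]
  constructor
  · rintro ⟨l, hl, hm, rfl⟩
    have : ∃ w : Word, w.map (letP ω) = l := by
      clear hl
      induction l with
      | nil => exact ⟨[], rfl⟩
      | cons x l ih =>
        obtain ⟨w, hw⟩ := ih (fun y hy => hm y (List.mem_cons_of_mem _ hy))
        obtain ⟨y, hy⟩ := (mem_gens_iff ω x).1 (hm x (List.mem_cons_self))
        exact ⟨y :: w, by simp [hw, hy]⟩
    obtain ⟨w, rfl⟩ := this
    refine ⟨w.reverse, by simpa using hl, ?_⟩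
    rw [evP_eq_prod]; simp [List.map_reverse]
  · rintro ⟨w, hw, rfl⟩
    refine ⟨(w.map (letP ω)).reverse, by simpa using hw, ?_, (evP_eq_prod ω w).symm⟩
    intro x hx
    simp only [List.mem_reverse, List.mem_map] at hx
    obtain ⟨y, _, rfl⟩ := hx
    exact (mem_gens_iff ω _).2 ⟨y, rfl⟩

theorem growth_eq (ω : ℕ → Fin 3) (n : ℕ) :
    growth (gens ω) n = Set.ncard {g | InBall ω n g} := by
  unfold growth; rw [ball_eq]

theorem ball_finite (ω : ℕ → Fin 3) (n : ℕ) : {g | InBall ω n g}.Finite := by
  have : {g | InBall ω n g} = evP ω '' {w : Word | w.length ≤ n} := by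
    ext g; simp [InBall]
  rw [this]
  exact (List.finite_length_le _ n).image _

theorem InBall.mono {ω : ℕ → Fin 3} {n m : ℕ} {g : Equiv.Perm (List Bool)} (h : InBall ω n g)
    (hnm : n ≤ m) : InBall ω m g := by
  obtain ⟨w, hw, e⟩ := h
  exact ⟨w, hw.trans hnm, e⟩

theorem InBall.mul {ω : ℕ → Fin 3} {n m : ℕ} {g h : Equiv.Perm (List Bool)} (hg : InBall ω n g)
    (hh : InBall ω m h) : InBall ω (n + m) (g * h) := by
  obtain ⟨w, hw, rfl⟩ := hg
  obtain ⟨w', hw', rfl⟩ := hh
  exact ⟨w' ++ w, by simp; omega, evP_append ω w' w⟩

theorem InBall.one (ω : ℕ → Fin 3) (n : ℕ) : InBall ω n 1 := ⟨[], by simp, rfl⟩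

theorem growth_mono (ω : ℕ → Fin 3) {n m : ℕ} (h : n ≤ m) :
    growth (gens ω) n ≤ growth (gens ω) m := by
  rw [growth_eq, growth_eq]
  exact Set.ncard_le_ncard (fun g hg => InBall.mono hg h) (ball_finite ω m)

theorem growth_pos (ω : ℕ → Fin 3) (n : ℕ) : 1 ≤ growth (gens ω) n := by
  rw [growth_eq]
  exact (Set.ncard_pos (ball_finite ω n)).2 ⟨1, InBall.one ω n⟩

/-! ### sections -/

def par : Word → Bool
  | [] => false
  | none :: w => !par w
  | some _ :: w => par w

def sec (i : Fin 3) : Word → Bool → Word
  | [], _ => []
  | none :: w, δ => sec i w (!δ)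
  | some s :: w, true => some s :: sec i w true
  | some s :: w, false => if col i s then none :: sec i w false else sec i w false

theorem run_nil (ω : ℕ → Fin 3) (w : Word) : run ω w [] = [] := by
  induction w with
  | nil => rfl
  | cons x w ih => cases x <;> simp [run, letFun, flipFun, genFun, ih]

theorem run_cons (ω : ℕ → Fin 3) (w : Word) (δ : Bool) (v : List Bool) :
    run ω w (δ :: v) = (xor δ (par w)) :: run (shift ω) (sec (ω 0) w δ) v := by
  induction w generalizing δ v with
  | nil => simp [run, par, sec]
  | cons x w ih =>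
    rcases x with _ | s
    · simp only [run, letFun, flipFun, par, sec, ih]
      cases δ <;> simp
    · cases δ
      · by_cases h : col (ω 0) s = true <;> simp [run, letFun, genFun, par, sec, ih, h]
      · simp [run, letFun, genFun, par, sec, ih]

/-! ### reduction -/

def third (s t : Fin 3) : Fin 3 := -(s + t)

theorem col_third (i s t : Fin 3) (h : s ≠ t) : col i (third s t) = xor (col i s) (col i t) := by
  revert i s t; decide

theorem genFun_third (s t : Fin 3) (h : s ≠ t) (v : List Bool) (ω : ℕ → Fin 3) :
    genFun t (genFun s v ω) ω = genFun (third s t) v ω := by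
  induction v generalizing ω with
  | nil => simp [genFun]
  | cons x v ih =>
    cases x
    · simp only [genFun, col_third _ s t h]
      by_cases h1 : col (ω 0) s = true <;> by_cases h2 : col (ω 0) t = true <;>
        simp [h1, h2, flipFun_invol v]
    · simp [genFun, ih]

def push : Option (Fin 3) → Word → Word
  | none, none :: w => w
  | none, some t :: w => none :: some t :: w
  | some s, some t :: w => if s = t then w else some (third s t) :: w
  | some s, none :: w => some s :: none :: w
  | x, [] => [x]

def red (w : Word) : Word := w.foldr push []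

theorem run_push (ω : ℕ → Fin 3) (x : Option (Fin 3)) (w : Word) (v : List Bool) :
    run ω (push x w) v = run ω (x :: w) v := by
  rcases x with _ | s <;> rcases w with _ | ⟨_ | t, w⟩ <;> simp only [push, run, letFun]
  · rw [flipFun_invol v]
  · by_cases h : s = t
    · subst h
      simp only [if_true]
      rw [show genFun s (genFun s v ω) ω = v from genFun_invol s ω v]
    · simp only [h, if_false, run, letFun]
      rw [genFun_third s t h]

theorem run_red (ω : ℕ → Fin 3) (w : Word) (v : List Bool) : run ω (red w) v = run ω w v := by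
  induction w generalizing v with
  | nil => rfl
  | cons x w ih =>
    have : red (x :: w) = push x (red w) := rfl
    rw [this, run_push]
    simp [run, ih]

theorem length_push (x : Option (Fin 3)) (w : Word) : (push x w).length ≤ w.length + 1 := by
  rcases x with _ | s <;> rcases w with _ | ⟨_ | t, w⟩ <;> simp only [push] <;>
    (try split_ifs) <;> simp <;> omega

theorem length_red (w : Word) : (red w).length ≤ w.length := by
  induction w with
  | nil => simp [red]
  | cons x w ih =>
    have : red (x :: w) = push x (red w) := rfl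
    rw [this]
    have := length_push x (red w)
    simp; omega

def Alt : Word → Prop
  | [] => True
  | [_] => True
  | x :: y :: w => x.isSome ≠ y.isSome ∧ Alt (y :: w)

theorem Alt.tail {x : Option (Fin 3)} {w : Word} (h : Alt (x :: w)) : Alt w := by
  cases w with
  | nil => trivial
  | cons y w => exact h.2

theorem alt_push (x : Option (Fin 3)) (w : Word) (h : Alt w) : Alt (push x w) := by
  rcases x with _ | s <;> rcases w with _ | ⟨_ | t, w⟩ <;> simp only [push]
  · trivial
  · exact h.tail
  · exact ⟨by simp, h⟩
  · trivial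
  · exact ⟨by simp, h⟩
  · split_ifs
    · exact h.tail
    · cases w with
      | nil => trivial
      | cons y w => exact ⟨by simpa using h.1, h.2⟩

theorem alt_red (w : Word) : Alt (red w) := by
  induction w with
  | nil => trivial
  | cons x w ih => exact alt_push x _ ih

def cntA : Word → ℕ
  | [] => 0
  | none :: w => cntA w + 1
  | some _ :: w => cntA w

def cntS : Word → ℕ
  | [] => 0
  | none :: w => cntS w
  | some _ :: w => cntS w + 1

theorem length_eq_cnt (w : Word) : w.length = cntA w + cntS w := by
  induction w with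
  | nil => rfl
  | cons x w ih => cases x <;> simp [cntA, cntS, ih] <;> omega

theorem alt_cnt (w : Word) (h : Alt w) :
    (cntS w ≤ cntA w + 1 ∧ cntA w ≤ cntS w + 1) ∧
      (∀ x w', w = x :: w' → (x = none → cntS w ≤ cntA w) ∧ (x ≠ none → cntA w ≤ cntS w)) := by
  induction w with
  | nil => simp [cntA, cntS]
  | cons x w ih =>
    have ih := ih h.tail
    cases w with
    | nil => cases x <;> simp [cntA, cntS]
    | cons y w =>
      have h1 := h.1
      have h2 := ih.2 y w rfl
      have h3 := ih.1
      rcases x with _ | s <;> rcases y with _ | t <;> simp_all [cntA, cntS] <;> omega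

end Pool.Agent.MP_fbbd83_al
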